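import Mathlib

set_option autoImplicit false

open Topology Filter Set Metric

namespace Pool.Agent.H28Z.Ch

/-- Birkhoff transitivity theorem. -/
theorem birkhoff {Y : Type*} [TopologicalSpace Y] [BaireSpace Y] [SecondCountableTopology Y]
    [Nonempty Y] (T : Y → Y) (hT : Continuous T)
    (h : ∀ U V : Set Y, IsOpen U → IsOpen V → U.Nonempty → V.Nonempty →
      ∃ n : ℕ, ∃ x ∈ U, T^[n] x ∈ V) :
    ∃ y : Y, Dense (Set.range fun n : ℕ => T^[n] y) := by
  have hd : Dense (⋂ V ∈ TopologicalSpace.countableBasis Y, ⋃ n : ℕ, T^[n] ⁻¹' V) := by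
    refine dense_biInter_of_isOpen ?_ (TopologicalSpace.countable_countableBasis Y) ?_
    · intro V hV
      exact isOpen_iUnion fun n =>
        (TopologicalSpace.isOpen_of_mem_countableBasis hV).preimage (hT.iterate n)
    · intro V hV
      rw [dense_iff_inter_open]
      intro U hU hne
      obtain ⟨n, x, hx, hxV⟩ := h U V hU (TopologicalSpace.isOpen_of_mem_countableBasis hV) hne
        (TopologicalSpace.nonempty_of_mem_countableBasis hV)
      exact ⟨x, hx, mem_iUnion.2 ⟨n, hxV⟩⟩
  obtain ⟨y, hy⟩ := hd.nonempty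
  refine ⟨y, (TopologicalSpace.isBasis_countableBasis Y).dense_iff.2 fun V hV _ => ?_⟩
  obtain ⟨n, hn⟩ := mem_iUnion.1 (mem_iInter₂.1 hy V hV)
  exact ⟨_, hn, n, rfl⟩

theorem isUniformAddGroup_cm (α : Type*) [TopologicalSpace α] : IsUniformAddGroup C(α, ℂ) := by
  let φ : C(α, ℂ) →+ (UniformOnFun α ℂ {K | IsCompact K}) :=
    { toFun := ContinuousMap.toUniformOnFunIsCompact
      map_zero' := rfl
      map_add' := fun _ _ => rfl }
  exact IsUniformInducing.isUniformAddGroup φ
    ContinuousMap.isUniformEmbedding_toUniformOnFunIsCompact.isUniformInducing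

theorem secondCountable_onePoint (J : Type) [TopologicalSpace J] [DiscreteTopology J]
    [Countable J] : SecondCountableTopology (OnePoint J) := by
  have h1 : (cofinite : Filter J).IsCountablyGenerated := by
    refine HasCountableBasis.isCountablyGenerated (p := Set.Finite) (s := compl)
      ⟨hasBasis_cofinite, ?_⟩
    refine (Set.countable_ofPred_finite_subset (Set.countable_univ (α := J))).mono ?_
    intro s hs
    exact ⟨hs, subset_univ _⟩
  have h2 : FirstCountableTopology (OnePoint J) := by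
    refine ⟨fun x => ?_⟩
    induction x using OnePoint.rec with
    | infty =>
      rw [OnePoint.nhds_infty_eq, coclosedCompact_eq_cocompact, cocompact_eq_cofinite]
      infer_instance
    | coe x => rw [OnePoint.nhds_coe_eq]; infer_instance
  have h3 : Countable (OnePoint J) := inferInstanceAs (Countable (Option J))
  infer_instance

/-- second order estimate for difference quotients of entire functions -/
theorem quot_est {g : ℂ → ℂ} (hg : Differentiable ℂ g) {w h : ℂ} {C : ℝ}
    (hC : ∀ y ∈ ball w 1, ‖g y‖ ≤ C) (h0 : h ≠ 0) (h1 : ‖h‖ < 1) :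
    ‖h⁻¹ * (g (w + h) - g w) - deriv g w‖ ≤ 4 * C * ‖h‖ := by
  have hw : w ∈ ball w 1 := mem_ball_self one_pos
  have a1 : ∀ y ∈ ball w 1, ‖dslope g w y‖ ≤ 2 * C := by
    intro y hy
    have := Complex.norm_dslope_le_div_of_mapsTo_ball (f := g) (c := w) (R₁ := 1) (R₂ := 2 * C)
      hg.differentiableOn (fun t ht => by
        rw [mem_closedBall, dist_eq_norm]
        have := norm_sub_le (g t) (g w)
        linarith [hC t ht, hC w hw]) hy
    simpa using this
  have a2 : DifferentiableOn ℂ (dslope g w) (ball w 1) :=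
    (Complex.differentiableOn_dslope (ball_mem_nhds w one_pos)).2 hg.differentiableOn
  have hwh : w + h ∈ ball w 1 := by simpa using h1
  have a3 := Complex.dist_le_div_mul_dist_of_mapsTo_ball (f := dslope g w) (c := w) (R₁ := 1)
    (R₂ := 4 * C) a2 (fun t ht => by
      rw [mem_closedBall, dist_eq_norm]
      have := norm_sub_le (dslope g w t) (dslope g w w)
      linarith [a1 t ht, a1 w hw]) hwh
  rw [dslope_same, dslope_of_ne _ (by simpa using h0), slope_def_field, dist_eq_norm,
    dist_eq_norm] at a3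
  simp only [add_sub_cancel_left, div_one] at a3
  rwa [div_eq_inv_mul] at a3

variable {J : Type} [TopologicalSpace J]

/-- the base space: two families of copies of the plane, each with one limit copy -/
abbrev M (J : Type) [TopologicalSpace J] : Type := (OnePoint J × Bool) × ℂ

/-- leafwise entire functions whose second family is the translate of the first -/
def S (a : J → ℂ) : Submodule ℂ C(M J, ℂ) where
  carrier := {f | (∀ k, Differentiable ℂ fun w => f (k, w)) ∧
    ∀ (j : J) (w : ℂ), f (((j : OnePoint J), true), w) = f (((j : OnePoint J), false), w + a j)}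
  zero_mem' := ⟨fun _ => by simp, fun _ _ => rfl⟩
  add_mem' := fun {f g} hf hg => ⟨fun k => (hf.1 k).add (hg.1 k), fun j w => by
    simp only [ContinuousMap.add_apply, hf.2, hg.2]⟩
  smul_mem' := fun c f hf => ⟨fun k => (hf.1 k).const_smul c, fun j w => by
    simp only [ContinuousMap.smul_apply, hf.2]⟩

theorem mem_S {a : J → ℂ} {f : C(M J, ℂ)} : f ∈ S a ↔
    (∀ k, Differentiable ℂ fun w => f (k, w)) ∧
    ∀ (j : J) (w : ℂ), f (((j : OnePoint J), true), w) = f (((j : OnePoint J), false), w + a j) :=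
  Iff.rfl

theorem mul_mem {a : J → ℂ} {f g : C(M J, ℂ)} (hf : f ∈ S a) (hg : g ∈ S a) : f * g ∈ S a :=
  ⟨fun k => (hf.1 k).mul (hg.1 k), fun j w => by simp only [ContinuousMap.mul_apply, hf.2, hg.2]⟩

theorem one_mem {a : J → ℂ} : (1 : C(M J, ℂ)) ∈ S a :=
  ⟨fun _ => by simp, fun _ _ => rfl⟩

theorem isClosed_S (a : J → ℂ) : IsClosed (S a : Set C(M J, ℂ)) := by
  have h1 : ∀ k, IsClosed {f : C(M J, ℂ) | Differentiable ℂ fun w => f (k, w)} := by
    intro k
    rw [← closure_subset_iff_isClosed]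
    intro f hf
    have hne : (𝓝[{f : C(M J, ℂ) | Differentiable ℂ fun w => f (k, w)}] f).NeBot :=
      mem_closure_iff_nhdsWithin_neBot.1 hf
    let ι : C(ℂ, M J) := ⟨fun w => (k, w), by fun_prop⟩
    have ht : Tendsto (fun g : C(M J, ℂ) => g.comp ι)
        (𝓝[{f : C(M J, ℂ) | Differentiable ℂ fun w => f (k, w)}] f) (𝓝 (f.comp ι)) :=
      ((ContinuousMap.continuous_precomp ι).tendsto f).mono_left nhdsWithin_le_nhds
    rw [ContinuousMap.tendsto_iff_tendstoLocallyUniformly,
      ← tendstoLocallyUniformlyOn_univ] at ht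
    have := ht.differentiableOn (by
      filter_upwards [self_mem_nhdsWithin] with g hg
      exact hg.differentiableOn) isOpen_univ
    exact differentiableOn_univ.1 this
  have h2 : ∀ (j : J) (w : ℂ), IsClosed {f : C(M J, ℂ) |
      f (((j : OnePoint J), true), w) = f (((j : OnePoint J), false), w + a j)} :=
    fun j w => isClosed_eq (by fun_prop) (by fun_prop)
  have : (S a : Set C(M J, ℂ)) = (⋂ k, {f : C(M J, ℂ) | Differentiable ℂ fun w => f (k, w)}) ∩
      ⋂ j : J, ⋂ w : ℂ, {f : C(M J, ℂ) |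
        f (((j : OnePoint J), true), w) = f (((j : OnePoint J), false), w + a j)} := by
    ext f; simp [mem_S]
  rw [this]
  exact (isClosed_iInter h1).inter (isClosed_iInter fun j => isClosed_iInter fun w => h2 j w)

/-- translation of the base -/
def tau (J : Type) [TopologicalSpace J] (z : ℂ) : C(M J, M J) :=
  ⟨fun p => (p.1, p.2 + z), by fun_prop⟩

theorem comp_mem {a : J → ℂ} {f : C(M J, ℂ)} (hf : f ∈ S a) (z : ℂ) : f.comp (tau J z) ∈ S a := by
  refine ⟨fun k => ?_, fun j w => ?_⟩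
  · exact (hf.1 k).comp (differentiable_id.add_const z)
  · show f (((j : OnePoint J), true), w + z) = f (((j : OnePoint J), false), w + a j + z)
    rw [hf.2, add_right_comm]

/-- the translation group -/
noncomputable def T (a : J → ℂ) (z : ℂ) : S a →L[ℂ] S a where
  toFun f := ⟨f.1.comp (tau J z), comp_mem f.2 z⟩
  map_add' _ _ := rfl
  map_smul' _ _ := rfl
  cont := ((ContinuousMap.continuous_precomp (tau J z)).comp continuous_subtype_val).subtype_mk _

theorem T_apply (a : J → ℂ) (z : ℂ) (f : S a) (k : OnePoint J × Bool) (w : ℂ) :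
    (T a z f).1 (k, w) = f.1 (k, w + z) := rfl

theorem T_zero (a : J → ℂ) : T a 0 = ContinuousLinearMap.id ℂ (S a) := by
  ext f ⟨k, w⟩
  rw [T_apply]; simp

theorem T_add (a : J → ℂ) (z w : ℂ) : T a (z + w) = (T a z).comp (T a w) := by
  ext f ⟨k, y⟩
  rw [ContinuousLinearMap.comp_apply, T_apply, T_apply, T_apply, add_assoc]

theorem T_iter (a : J → ℂ) (z : ℂ) (n : ℕ) (f : S a) : (⇑(T a z))^[n] f = T a (n * z) f := by
  induction n with
  | zero => simp [T_zero]
  | succ n ih =>
    rw [Function.iterate_succ_apply', ih, ← ContinuousLinearMap.comp_apply, ← T_add]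
    congr 2; push_cast; ring

theorem T_cont (a : J → ℂ) (f : S a) : Continuous fun z : ℂ => T a z f := by
  refine Continuous.subtype_mk (f := fun z : ℂ => f.1.comp (tau J z)) ?_ _
  refine ContinuousMap.continuous_of_continuous_uncurry _ ?_
  show Continuous fun q : ℂ × M J => f.1 (q.2.1, q.2.2 + q.1)
  fun_prop

theorem unif_of_est {ι : Type*} {p : Filter ι} {g : ι → M J → ℂ} {f : M J → ℂ}
    (h : ∀ R ε : ℝ, 0 < ε → ∀ᶠ i in p, ∀ k w, ‖w‖ ≤ R → ‖g i (k, w) - f (k, w)‖ ≤ ε)
    (K : Set (M J)) (hK : IsCompact K) : TendstoUniformlyOn g f p K := by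
  obtain ⟨R, hR⟩ := (hK.image (continuous_snd.norm)).bddAbove
  rw [Metric.tendstoUniformlyOn_iff]
  intro ε hε
  filter_upwards [h R (ε / 2) (by positivity)] with i hi x hx
  have := hi x.1 x.2 (hR ⟨x, hx, rfl⟩)
  rw [dist_comm, dist_eq_norm]
  exact lt_of_le_of_lt this (by linarith)

theorem tendsto_of_est {ι : Type*} {p : Filter ι} {g : ι → C(M J, ℂ)} {f : C(M J, ℂ)}
    (h : ∀ R ε : ℝ, 0 < ε → ∀ᶠ i in p, ∀ k w, ‖w‖ ≤ R → ‖g i (k, w) - f (k, w)‖ ≤ ε) :
    Tendsto g p (𝓝 f) :=
  ContinuousMap.tendsto_iff_forall_isCompact_tendstoUniformlyOn.2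
    (unif_of_est (g := fun i x => g i x) h)

theorem exists_bound (f : C(M J, ℂ)) (R : ℝ) :
    ∃ C : ℝ, 0 < C ∧ ∀ k w, ‖w‖ ≤ R → ‖f (k, w)‖ ≤ C := by
  have hK : IsCompact ((univ : Set (OnePoint J × Bool)) ×ˢ closedBall (0 : ℂ) R) :=
    isCompact_univ.prod (isCompact_closedBall _ _)
  obtain ⟨C, hC⟩ := (hK.image f.continuous.norm).bddAbove
  refine ⟨max C 1, by positivity, fun k w hw => le_trans ?_ (le_max_left _ _)⟩
  exact hC ⟨(k, w), ⟨trivial, by simpa using hw⟩, rfl⟩

theorem T_holo [DiscreteTopology J] (a : J → ℂ) (x : S a) (z : ℂ) : ∃ v : S a,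
    Tendsto (fun h : ℂ => h⁻¹ • (T a (z + h) x - T a z x)) (𝓝[≠] (0 : ℂ)) (𝓝 v) := by
  set f := T a z x with hf
  have e : ∀ h : ℂ, T a (z + h) x = T a h f := fun h => by
    rw [add_comm, T_add]; rfl
  simp only [e]
  let D : M J → ℂ := fun p => deriv (fun w => f.1 (p.1, w)) p.2
  have est : ∀ R ε : ℝ, 0 < ε → ∀ᶠ h in 𝓝[≠] (0 : ℂ), ∀ k w, ‖w‖ ≤ R →
      ‖(h⁻¹ • (T a h f - f) : S a).1 (k, w) - D (k, w)‖ ≤ ε := by
    intro R ε hε
    obtain ⟨C, hC0, hC⟩ := exists_bound f.1 (R + 1)
    have hb : ball (0 : ℂ) (min 1 (ε / (4 * C))) ∈ 𝓝[≠] (0 : ℂ) :=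
      nhdsWithin_le_nhds (ball_mem_nhds _ (by positivity))
    filter_upwards [hb, self_mem_nhdsWithin] with h h1 h0 k w hw
    rw [mem_ball_zero_iff, lt_min_iff] at h1
    have := quot_est (g := fun w => f.1 (k, w)) (f.2.1 k) (w := w) (h := h) (C := C)
      (fun y hy => hC k y (by
        rw [mem_ball, dist_eq_norm] at hy
        have := norm_add_le (y - w) w
        rw [sub_add_cancel] at this
        linarith)) h0 h1.1
    refine le_trans this ?_
    have h2 := h1.2.le
    rw [le_div_iff₀ (by positivity)] at h2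
    linarith
  have hD : Continuous D := by
    have : TendstoLocallyUniformly (fun (h : ℂ) (p : M J) => (h⁻¹ • (T a h f - f) : S a).1 p) D
        (𝓝[≠] (0 : ℂ)) :=
      tendstoLocallyUniformly_iff_forall_isCompact.2 (unif_of_est est)
    exact this.continuous (Frequently.of_forall fun h => ContinuousMap.continuous _)
  have ht : Tendsto (fun h : ℂ => (h⁻¹ • (T a h f - f) : S a).1) (𝓝[≠] (0 : ℂ))
      (𝓝 (⟨D, hD⟩ : C(M J, ℂ))) := tendsto_of_est est
  have hm : (⟨D, hD⟩ : C(M J, ℂ)) ∈ S a :=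
    (isClosed_S a).mem_of_tendsto ht (Eventually.of_forall fun h => Subtype.property _)
  exact ⟨⟨_, hm⟩, tendsto_subtype_rng.2 ht⟩

end Pool.Agent.H28Z.Ch
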