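import Mathlib

set_option autoImplicit false

open Topology Filter Set Metric MeasureTheory

namespace Pool.Agent.H28Z.Ch

/-- a rapidly increasing sequence of radii -/
noncomputable def rho : ℕ → ℝ
  | 0 => 1
  | k + 1 => 10 ^ 14 * 2 ^ k * rho k

theorem rho_succ (k : ℕ) : rho (k + 1) = 10 ^ 14 * 2 ^ k * rho k := rfl

theorem rho_ge (k : ℕ) : (k : ℝ) + 1 ≤ rho k := by
  induction k with
  | zero => simp [rho]
  | succ k ih =>
    rw [rho_succ]
    have h1 : (1 : ℝ) ≤ 2 ^ k := one_le_pow₀ (by norm_num)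
    have h2 : (0 : ℝ) ≤ k := Nat.cast_nonneg k
    push_cast
    nlinarith

theorem rho_one_le (k : ℕ) : 1 ≤ rho k := by
  have := rho_ge k
  have h2 : (0 : ℝ) ≤ k := Nat.cast_nonneg k
  linarith

theorem rho_step (k : ℕ) : 10 ^ 14 * rho k ≤ rho (k + 1) := by
  rw [rho_succ]
  have h1 : (1 : ℝ) ≤ 2 ^ k := one_le_pow₀ (by norm_num)
  have := rho_one_le k
  nlinarith

theorem rho_mono : Monotone rho := monotone_nat_of_le_succ fun k => by
  have := rho_step k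
  have := rho_one_le k
  nlinarith

theorem slope_est {t t' s s' r δ : ℝ} (hr : 0 < r) (ht : r ≤ t) (hs' : 0 ≤ s') (hs1 : s' ≤ 1)
    (h1 : |t - t'| ≤ δ) (h2 : |t * s - t' * s'| ≤ δ) : |s - s'| ≤ 2 * δ / r := by
  have ht0 : 0 < t := lt_of_lt_of_le hr ht
  have e : t * (s - s') = (t * s - t' * s') - (t - t') * s' := by ring
  have h3 : |(t - t') * s'| ≤ δ := by
    rw [abs_mul, abs_of_nonneg hs']
    calc |t - t'| * s' ≤ δ * 1 := by gcongr; exact le_trans (abs_nonneg _) h1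
      _ = δ := mul_one _
  have h4 : |t * (s - s')| ≤ 2 * δ := by
    rw [e]; have := abs_sub (t * s - t' * s') ((t - t') * s'); linarith
  rw [abs_mul, abs_of_pos ht0] at h4
  rw [le_div_iff₀ hr]
  have := abs_nonneg (s - s')
  nlinarith

theorem floor_close {x y : ℝ} (h : ⌊x⌋₊ = ⌊y⌋₊) (hx : 0 ≤ x) (hy : 0 ≤ y) : |x - y| ≤ 1 := by
  have a1 := Nat.floor_le hx
  have a2 := Nat.floor_le hy
  have a3 := Nat.lt_floor_add_one x
  have a4 := Nat.lt_floor_add_one y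
  rw [h] at a1 a3
  rw [abs_le]; constructor <;> linarith

/-- the slopes of the points of `A` at scale `k` -/
def bad (A : Set ℂ) (k : ℕ) : Set ℝ :=
  {s | 0 ≤ s ∧ s ≤ 1 ∧ ∃ t : ℝ, rho (k + 1) / 4 ≤ t ∧ t ≤ 4000 * rho (k + 1) ∧
    (⟨t, t * s⟩ : ℂ) ∈ A}

theorem bad_vol {A : Set ℂ}
    (hA : ∀ w ∈ A, ∀ w' ∈ A, ∀ k, ‖w - w'‖ < 2000 * rho k + 1 ∨ rho (k + 1) - 1 < ‖w - w'‖)
    (k : ℕ) : volume (bad A k) ≤ ENNReal.ofReal ((1 / 2) ^ k / 4) := by
  set r := rho (k + 1) with hr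
  have hr1 : 10 ^ 14 ≤ r := by have := rho_step k; have := rho_one_le k; nlinarith
  have hr0 : 0 < r := by linarith
  let cell : ℕ × ℕ → Set ℝ := fun pq => {s | 0 ≤ s ∧ s ≤ 1 ∧ ∃ t : ℝ, r / 4 ≤ t ∧
    (⟨t, t * s⟩ : ℂ) ∈ A ∧ ⌊4 * t / r⌋₊ = pq.1 ∧ ⌊4 * (t * s) / r⌋₊ = pq.2}
  have hsub : bad A k ⊆ ⋃ pq ∈ (Finset.range 16001 ×ˢ Finset.range 16001), cell pq := by
    rintro s ⟨h0, h1, t, ht1, ht2, hA⟩
    have ht0 : 0 ≤ t := by linarith
    have hts : t * s ≤ t := by nlinarith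
    have b1 : 4 * t / r < (16001 : ℕ) := by
      rw [div_lt_iff₀ hr0]; push_cast; linarith
    have b2 : 4 * (t * s) / r < (16001 : ℕ) := by
      rw [div_lt_iff₀ hr0]; push_cast; linarith
    refine mem_iUnion₂.2 ⟨(⌊4 * t / r⌋₊, ⌊4 * (t * s) / r⌋₊), ?_, h0, h1, t, ht1, hA, rfl, rfl⟩
    simp only [Finset.mem_product, Finset.mem_range]
    exact ⟨(Nat.floor_lt (by positivity)).2 b1, (Nat.floor_lt (by positivity)).2 b2⟩
  have hcell : ∀ pq, volume (cell pq) ≤ ENNReal.ofReal (32000 * rho k / r) := by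
    intro pq
    refine le_trans (Real.volume_le_diam _) (Metric.ediam_le ?_)
    rintro s ⟨h0, h1, t, ht1, hAs, p1, q1⟩ s' ⟨h0', h1', t', ht1', hAs', p2, q2⟩
    have ht0 : 0 ≤ t := by linarith
    have ht0' : 0 ≤ t' := by linarith
    have c1 := floor_close (p1.trans p2.symm) (by positivity) (by positivity)
    have c2 := floor_close (q1.trans q2.symm) (by positivity) (by positivity)
    rw [← sub_div, abs_div, abs_of_pos hr0, div_le_one hr0, ← mul_sub, abs_mul,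
      abs_of_pos (by norm_num : (0 : ℝ) < 4)] at c1 c2
    have n1 : ‖(⟨t, t * s⟩ : ℂ) - ⟨t', t' * s'⟩‖ ≤ |t - t'| + |t * s - t' * s'| :=
      Complex.norm_le_abs_re_add_abs_im _
    have n2 : ‖(⟨t, t * s⟩ : ℂ) - ⟨t', t' * s'⟩‖ < 2000 * rho k + 1 := by
      refine (hA _ hAs _ hAs' k).resolve_right ?_
      rw [← hr]; linarith
    have n3 : |t - t'| ≤ ‖(⟨t, t * s⟩ : ℂ) - ⟨t', t' * s'⟩‖ :=
      Complex.abs_re_le_norm ((⟨t, t * s⟩ : ℂ) - ⟨t', t' * s'⟩)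
    have n4 : |t * s - t' * s'| ≤ ‖(⟨t, t * s⟩ : ℂ) - ⟨t', t' * s'⟩‖ :=
      Complex.abs_im_le_norm ((⟨t, t * s⟩ : ℂ) - ⟨t', t' * s'⟩)
    have hk := rho_one_le k
    have := slope_est (r := r / 4) (δ := 4000 * rho k) (by positivity) ht1 h0' h1'
      (le_trans n3 (by linarith)) (le_trans n4 (by linarith))
    rw [edist_dist, Real.dist_eq]
    refine ENNReal.ofReal_le_ofReal (le_trans this (le_of_eq ?_))
    field_simp; norm_num
  refine le_trans (measure_mono hsub) (le_trans (measure_biUnion_finset_le _ _) ?_)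
  refine le_trans (Finset.sum_le_sum fun pq _ => hcell pq) ?_
  rw [Finset.sum_const, Finset.card_product, Finset.card_range, nsmul_eq_mul,
    ← ENNReal.ofReal_natCast, ← ENNReal.ofReal_mul (by positivity)]
  refine ENNReal.ofReal_le_ofReal ?_
  have hk := rho_one_le k
  rw [hr, rho_succ, one_div, inv_pow]
  have h2 : (0 : ℝ) < 2 ^ k := by positivity
  field_simp
  push_cast
  norm_num

theorem sparse {A : Set ℂ}
    (hA : ∀ w ∈ A, ∀ w' ∈ A, ∀ k, ‖w - w'‖ < 2000 * rho k + 1 ∨ rho (k + 1) - 1 < ‖w - w'‖) :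
    ∃ z : ℂ, z ≠ 0 ∧ ∀ n : ℕ, 1 ≤ n → (n : ℂ) * z ∉ A := by
  rcases A.eq_empty_or_nonempty with rfl | ⟨a0, ha0⟩
  · exact ⟨1, one_ne_zero, fun _ _ h => h⟩
  have hvol : volume (⋃ k, bad A k) < volume (Icc (0 : ℝ) 1) := by
    refine lt_of_le_of_lt (measure_iUnion_le _) ?_
    refine lt_of_le_of_lt (ENNReal.tsum_le_tsum (bad_vol hA)) ?_
    have hs : Summable fun k : ℕ => ((1 : ℝ) / 2) ^ k / 4 := summable_geometric_two.div_const 4
    rw [← ENNReal.ofReal_tsum_of_nonneg (fun k => by positivity) hs, tsum_div_const,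
      tsum_geometric_two, Real.volume_Icc]
    rw [ENNReal.ofReal_lt_ofReal_iff (by norm_num)]; norm_num
  obtain ⟨s, hs, hsb⟩ : ∃ s ∈ Icc (0 : ℝ) 1, s ∉ ⋃ k, bad A k := by
    by_contra hcon
    push Not at hcon
    exact absurd (measure_mono hcon) (not_le.2 hvol)
  obtain ⟨k0, hk0⟩ := exists_nat_ge (4 * (‖a0‖ + 1))
  have hk1 : 4 * (‖a0‖ + 1) ≤ rho k0 := by have := rho_ge k0; linarith
  set L : ℝ := 2000 * rho k0 + 1 + ‖a0‖ with hL
  have hL0 : 0 < L := by have := rho_one_le k0; positivity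
  refine ⟨⟨L, L * s⟩, fun h => hL0.ne' (congrArg Complex.re h), fun n hn hmem => hsb ?_⟩
  have hn1 : (1 : ℝ) ≤ n := by exact_mod_cast hn
  set t : ℝ := n * L with ht
  have htL : L ≤ t := by nlinarith
  have e : (n : ℂ) * ⟨L, L * s⟩ = ⟨t, t * s⟩ := by
    apply Complex.ext <;> simp [ht, mul_assoc]
  rw [e] at hmem
  set w : ℂ := ⟨t, t * s⟩ with hw
  have ht0 : 0 ≤ t := by linarith
  have w1 : t ≤ ‖w‖ := le_trans (le_abs_self _) (Complex.abs_re_le_norm w)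
  have w2 : ‖w‖ ≤ 2 * t := by
    have := Complex.norm_le_abs_re_add_abs_im w
    have h1 : |w.re| = t := abs_of_nonneg ht0
    have h2 : |w.im| = t * s := abs_of_nonneg (mul_nonneg ht0 hs.1)
    have h3 : t * s ≤ t := by nlinarith [hs.2]
    linarith
  have d1 : ‖w‖ - ‖a0‖ ≤ ‖w - a0‖ := norm_sub_norm_le w a0
  have d2 : ‖w - a0‖ ≤ ‖w‖ + ‖a0‖ := norm_sub_le w a0
  have hex : ∃ k, ‖w - a0‖ < 2000 * rho k + 1 := by
    obtain ⟨k, hk⟩ := exists_nat_ge ‖w - a0‖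
    exact ⟨k, by have := rho_ge k; have := rho_one_le k; linarith⟩
  classical
  have hfind := Nat.find_spec hex
  have hgt : k0 < Nat.find hex := by
    by_contra hcon
    have := rho_mono (not_lt.1 hcon)
    linarith
  obtain ⟨k, hk⟩ : ∃ k, Nat.find hex = k + 1 := ⟨Nat.find hex - 1, by omega⟩
  have hmin := Nat.find_min hex (m := k) (by omega)
  have h5 := (hA w hmem a0 ha0 k).resolve_left hmin
  rw [hk] at hfind
  have h6 : rho k0 ≤ rho (k + 1) := rho_mono (by omega)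
  have h7 := norm_nonneg a0
  refine mem_iUnion.2 ⟨k, hs.1, hs.2, t, by linarith, by linarith, hmem⟩

/-- the Gaussian integer with given coordinates -/
def pt (a : ℤ × ℤ) : ℂ := ⟨a.1, a.2⟩

/-- the Gaussian integers in the gaps -/
def JJ : Type := {a : ℤ × ℤ // ∃ k, 2000 * rho k ≤ ‖pt a‖ ∧ ‖pt a‖ ≤ rho (k + 1)}

instance : TopologicalSpace JJ := ⊥
instance : DiscreteTopology JJ := ⟨rfl⟩
instance : Countable JJ := by unfold JJ; infer_instance

/-- the points -/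
def aa (j : JJ) : ℂ := pt j.1

theorem aa_tendsto : Tendsto (fun j => ‖aa j‖) cofinite atTop := by
  rw [Filter.tendsto_atTop]
  intro R
  rw [eventually_cofinite]
  obtain ⟨N, hN⟩ := exists_nat_ge R
  have hfin : (Subtype.val ⁻¹' ((Icc (-N : ℤ) N) ×ˢ (Icc (-N : ℤ) N)) : Set JJ).Finite :=
    ((finite_Icc _ _).prod (finite_Icc _ _)).preimage Subtype.val_injective.injOn
  refine hfin.subset fun j hj => ?_
  have h0 : ‖aa j‖ < N := lt_of_lt_of_le (not_le.1 hj) hN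
  have h1 : |((j.1.1 : ℤ) : ℝ)| ≤ (N : ℝ) := le_trans (Complex.abs_re_le_norm (aa j)) h0.le
  have h2 : |((j.1.2 : ℤ) : ℝ)| ≤ (N : ℝ) := le_trans (Complex.abs_im_le_norm (aa j)) h0.le
  rw [abs_le] at h1 h2
  exact ⟨⟨by exact_mod_cast h1.1, by exact_mod_cast h1.2⟩,
    ⟨by exact_mod_cast h2.1, by exact_mod_cast h2.2⟩⟩

theorem aa_two (j : JJ) : 2 < ‖aa j‖ := by
  obtain ⟨k, h, -⟩ := j.2
  have := rho_one_le k
  unfold aa; linarith

theorem aa_gap (R : ℝ) : ∃ ρ : ℝ, R ≤ ρ ∧ ∀ j, ‖aa j‖ ≤ ρ ∨ 2000 * ρ ≤ ‖aa j‖ := by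
  obtain ⟨N, hN⟩ := exists_nat_ge R
  refine ⟨rho N, by have := rho_ge N; linarith, fun j => ?_⟩
  obtain ⟨k, h1, h2⟩ := j.2
  rcases le_or_gt N k with h | h
  · right; have := rho_mono h; unfold aa; linarith
  · left; exact le_trans h2 (rho_mono h)

theorem aa_near {d : ℂ} (h : ∀ j, 1 < ‖d - aa j‖) (k : ℕ) :
    ‖d‖ < 2000 * rho k + 1 ∨ rho (k + 1) - 1 < ‖d‖ := by
  by_contra hcon
  push Not at hcon
  let a : ℤ × ℤ := (round d.re, round d.im)
  have h1 : ‖d - pt a‖ ≤ 1 := by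
    have := Complex.norm_le_abs_re_add_abs_im (d - pt a)
    have a1 : |(d - pt a).re| ≤ 1 / 2 := abs_sub_round d.re
    have a2 : |(d - pt a).im| ≤ 1 / 2 := abs_sub_round d.im
    linarith
  have h2 := norm_sub_norm_le d (pt a)
  have h3 := norm_sub_norm_le (pt a) d
  rw [norm_sub_rev] at h3
  exact absurd (h ⟨a, k, by linarith [hcon.1], by linarith [hcon.2]⟩) (not_lt.2 h1)

end Pool.Agent.H28Z.Ch
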