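import Pool.Agent.H28Z.ChSpace

set_option autoImplicit false

open Topology Filter Set Metric

namespace Pool.Agent.H28Z.Ch

/-- the polynomial map with superattracting fixed points zero and one -/
def psi {R : Type*} [Ring R] (x : R) : R := x * x * (1 + 1 + 1 - (x + x))

theorem one_sub_psi (x : ℂ) : 1 - psi x = psi (1 - x) := by unfold psi; ring

theorem one_sub_psi_iter (n : ℕ) (x : ℂ) : 1 - psi^[n] x = psi^[n] (1 - x) := by
  induction n generalizing x with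
  | zero => rfl
  | succ n ih => rw [Function.iterate_succ_apply, Function.iterate_succ_apply, ih, one_sub_psi]

theorem norm_psi {x : ℂ} (h : ‖x‖ ≤ 1 / 5) : ‖psi x‖ ≤ 7 / 10 * ‖x‖ := by
  unfold psi
  have h1 : ‖(1 + 1 + 1 - (x + x) : ℂ)‖ ≤ 17 / 5 := by
    have a1 := norm_sub_le (1 + 1 + 1 : ℂ) (x + x)
    have a2 := norm_add_le x x
    have a3 : ‖(1 + 1 + 1 : ℂ)‖ = 3 := by norm_num
    rw [a3] at a1
    refine le_trans a1 ?_
    linarith
  rw [norm_mul, norm_mul]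
  have h0 := norm_nonneg x
  calc ‖x‖ * ‖x‖ * ‖(1 + 1 + 1 - (x + x) : ℂ)‖ ≤ ‖x‖ * (1 / 5) * (17 / 5) := by gcongr
    _ ≤ 7 / 10 * ‖x‖ := by nlinarith

theorem norm_psi_iter (n : ℕ) {x : ℂ} (h : ‖x‖ ≤ 1 / 5) : ‖psi^[n] x‖ ≤ (7 / 10) ^ n / 5 := by
  induction n with
  | zero => simpa using h
  | succ n ih =>
    rw [Function.iterate_succ_apply']
    have h1 : ((7 : ℝ) / 10) ^ n ≤ 1 := pow_le_one₀ (by norm_num) (by norm_num)
    have := norm_psi (x := psi^[n] x) (by linarith)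
    rw [pow_succ]; linarith

variable {J : Type} [TopologicalSpace J]

theorem psi_iter_mem {a : J → ℂ} {l : C(M J, ℂ)} (hl : l ∈ S a) (n : ℕ) : psi^[n] l ∈ S a := by
  induction n with
  | zero => exact hl
  | succ n ih =>
    rw [Function.iterate_succ_apply']
    exact mul_mem (mul_mem ih ih) ((S a).sub_mem
      ((S a).add_mem ((S a).add_mem one_mem one_mem) one_mem) ((S a).add_mem ih ih))

theorem psi_iter_apply (l : C(M J, ℂ)) (n : ℕ) (p : M J) : (psi^[n] l) p = psi^[n] (l p) := by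
  induction n with
  | zero => rfl
  | succ n ih =>
    rw [Function.iterate_succ_apply', Function.iterate_succ_apply', ← ih]
    simp [psi]

theorem exists_ext [DiscreteTopology J] (g : J → ℂ) (hg : Tendsto g cofinite (𝓝 0)) :
    ∃ G : OnePoint J → ℂ, Continuous G ∧ G OnePoint.infty = 0 ∧ ∀ j : J, G j = g j := by
  refine ⟨fun k => OnePoint.elim k 0 g, ?_, rfl, fun _ => rfl⟩
  rw [OnePoint.continuous_iff_from_discrete]
  exact hg

theorem three_est {x y z : ℂ} (hx : ‖x‖ ≤ 1 / 20) (hy : ‖y‖ ≤ 1 / 40) (hz : ‖z‖ ≤ 1 / 20) :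
    ‖1 - (1 + x) * (1 - y) * (1 - z)‖ ≤ 1 / 5 := by
  have e : 1 - (1 + x) * (1 - y) * (1 - z)
      = -x + y + z + x * y + x * z - y * z - x * y * z := by ring
  rw [e]
  have h0 := norm_nonneg x
  have h1 := norm_nonneg y
  have h2 := norm_nonneg z
  have b1 : ‖x * y‖ ≤ 1 / 20 * (1 / 40) := by rw [norm_mul]; gcongr
  have b2 : ‖x * z‖ ≤ 1 / 20 * (1 / 20) := by rw [norm_mul]; gcongr
  have b3 : ‖y * z‖ ≤ 1 / 40 * (1 / 20) := by rw [norm_mul]; gcongr
  have b4 : ‖x * y * z‖ ≤ 1 / 20 * (1 / 40) * (1 / 20) := by rw [norm_mul, norm_mul]; gcongr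
  have c1 := norm_sub_le (-x + y + z + x * y + x * z - y * z) (x * y * z)
  have c2 := norm_sub_le (-x + y + z + x * y + x * z) (y * z)
  have c3 := norm_add_le (-x + y + z + x * y) (x * z)
  have c4 := norm_add_le (-x + y + z) (x * y)
  have c5 := norm_add_le (-x + y) z
  have c6 := norm_add_le (-x) y
  rw [norm_neg] at c6
  linarith

theorem three_est' {x y z : ℂ} (hx : ‖x‖ ≤ 1 / 20) (hy : ‖y‖ ≤ 1 / 40) (hz : ‖z‖ ≤ 1 / 20) :
    ‖x * (1 - y) * (1 - z)‖ ≤ 1 / 5 := by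
  have b1 : ‖1 - y‖ ≤ 2 := by have := norm_sub_le 1 y; rw [norm_one] at this; linarith
  have b2 : ‖1 - z‖ ≤ 2 := by have := norm_sub_le 1 z; rw [norm_one] at this; linarith
  rw [norm_mul, norm_mul]
  calc ‖x‖ * ‖1 - y‖ * ‖1 - z‖ ≤ 1 / 20 * 2 * 2 := by gcongr
    _ = 1 / 5 := by norm_num

theorem exists_ell [DiscreteTopology J] {a : J → ℂ}
    (ha : Tendsto (fun j => ‖a j‖) cofinite atTop) {ρ : ℝ} (hρ : 0 < ρ) {b : ℂ}
    (hb1 : 40 * ρ ≤ ‖b‖) (hb2 : ‖b‖ ≤ 41 * ρ) (hab : ∀ j, ‖a j‖ ≤ ρ ∨ 2000 * ρ ≤ ‖a j‖) :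
    ∃ m ∈ S a, ∀ k w, ‖w‖ ≤ ρ → ‖m (k, w)‖ ≤ 1 / 5 ∧ ‖1 - m (k, w + b)‖ ≤ 1 / 5 := by
  classical
  have hb0 : b ≠ 0 := by
    intro h; rw [h, norm_zero] at hb1; linarith
  have hbp : 0 < ‖b‖ := norm_pos_iff.2 hb0
  have hev : ∀ᶠ j in cofinite, ¬ ‖a j‖ ≤ ρ :=
    (ha.eventually (eventually_gt_atTop ρ)).mono fun j hj => not_le.2 hj
  obtain ⟨c, hc, hc0, hc1⟩ := exists_ext (fun j => if ‖a j‖ ≤ ρ then a j else 0)
    (tendsto_const_nhds.congr' (hev.mono fun j hj => by simp [hj]))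
  have hinv : Tendsto (fun j => (a j)⁻¹) cofinite (𝓝 0) := by
    rw [tendsto_zero_iff_norm_tendsto_zero]
    simp only [norm_inv]
    exact ha.inv_tendsto_atTop
  obtain ⟨u, hu, hu0, hu1⟩ := exists_ext (fun j => if ‖a j‖ ≤ ρ then 0 else (a j)⁻¹)
    (hinv.congr' (hev.mono fun j hj => by simp [hj]))
  let χ : Bool → ℂ := fun β => if β then 1 else 0
  let σ : Bool → ℂ := fun β => if β then -1 else 1
  have hχ : Continuous χ := continuous_of_discreteTopology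
  have hσ : Continuous σ := continuous_of_discreteTopology
  have nχ : ∀ β, ‖χ β‖ ≤ 1 := fun β => by cases β <;> simp [χ]
  have nσ : ∀ β, ‖σ β‖ = 1 := fun β => by cases β <;> simp [σ]
  have nc : ∀ k, ‖c k‖ ≤ ρ := by
    intro k
    induction k using OnePoint.rec with
    | infty => rw [hc0]; simpa using hρ.le
    | coe j => rw [hc1]; split_ifs with h; exacts [h, by simpa using hρ.le]
  have nu : ∀ k, ‖u k‖ ≤ (2000 * ρ)⁻¹ := by
    intro k
    induction k using OnePoint.rec with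
    | infty => rw [hu0, norm_zero]; positivity
    | coe j =>
      rw [hu1]; split_ifs with h
      · rw [norm_zero]; positivity
      · rw [norm_inv]; exact inv_anti₀ (by positivity) ((hab j).resolve_left h)
  let m : C(M J, ℂ) := ⟨fun p => (b⁻¹ * (p.2 + c p.1.1 * χ p.1.2)) *
    (1 - u p.1.1 * σ p.1.2 * p.2) * (1 - 2 * (u p.1.1 * σ p.1.2 * p.2)), by fun_prop⟩
  have hm : ∀ k w, m (k, w) = (b⁻¹ * (w + c k.1 * χ k.2)) *
    (1 - u k.1 * σ k.2 * w) * (1 - 2 * (u k.1 * σ k.2 * w)) := fun _ _ => rfl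
  have small : ∀ (k : OnePoint J × Bool) (w : ℂ), ‖w‖ ≤ ρ → ‖b⁻¹ * (w + c k.1 * χ k.2)‖ ≤ 1 / 20 := by
    intro k w hw
    have h1 : ‖c k.1 * χ k.2‖ ≤ ρ := by
      rw [norm_mul]
      calc ‖c k.1‖ * ‖χ k.2‖ ≤ ρ * 1 := by gcongr; exacts [nc _, nχ _]
        _ = ρ := mul_one _
    have h2 := norm_add_le w (c k.1 * χ k.2)
    rw [norm_mul, norm_inv, inv_mul_le_iff₀ hbp]
    linarith
  have small2 : ∀ (k : OnePoint J × Bool) (w : ℂ), ‖w‖ ≤ 42 * ρ → ‖u k.1 * σ k.2 * w‖ ≤ 1 / 40 := by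
    intro k w hw
    rw [norm_mul, norm_mul, nσ, mul_one]
    calc ‖u k.1‖ * ‖w‖ ≤ (2000 * ρ)⁻¹ * (42 * ρ) := by gcongr; exact nu _
      _ = 42 / 2000 := by field_simp
      _ ≤ 1 / 40 := by norm_num
  have small3 : ∀ (k : OnePoint J × Bool) (w : ℂ), ‖w‖ ≤ 42 * ρ →
      ‖2 * (u k.1 * σ k.2 * w)‖ ≤ 1 / 20 := by
    intro k w hw
    have := small2 k w hw
    rw [norm_mul, Complex.norm_two]; linarith
  refine ⟨m, ⟨fun k => ?_, fun j w => ?_⟩, fun k w hw => ⟨?_, ?_⟩⟩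
  · simp only [hm]; fun_prop
  · rw [hm, hm]
    simp only [hc1, hu1, χ, σ]
    by_cases h : ‖a j‖ ≤ ρ
    · simp [h]
    · have h0 : a j ≠ 0 := by
        intro e; rw [e, norm_zero] at h; exact h hρ.le
      simp only [h, if_false, if_true, Bool.false_eq_true]
      field_simp
      ring
  · rw [hm]
    exact three_est' (small k w hw) (small2 k w (by linarith)) (small3 k w (by linarith))
  · rw [hm]
    have hwb : ‖w + b‖ ≤ 42 * ρ := by have := norm_add_le w b; linarith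
    have e : b⁻¹ * (w + b + c k.1 * χ k.2) = 1 + b⁻¹ * (w + c k.1 * χ k.2) := by
      field_simp; ring
    rw [e]
    exact three_est (small k w hw) (small2 k _ hwb) (small3 k _ hwb)

theorem exists_approx [DiscreteTopology J] {a : J → ℂ}
    (ha : Tendsto (fun j => ‖a j‖) cofinite atTop) {ρ : ℝ} (hρ : 0 < ρ) {b : ℂ}
    (hb1 : 40 * ρ ≤ ‖b‖) (hb2 : ‖b‖ ≤ 41 * ρ) (hab : ∀ j, ‖a j‖ ≤ ρ ∨ 2000 * ρ ≤ ‖a j‖)
    (f g : S a) {ε : ℝ} (hε : 0 < ε) :
    ∃ h : S a, ∀ k w, ‖w‖ ≤ ρ → ‖h.1 (k, w) - f.1 (k, w)‖ ≤ ε ∧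
      ‖(T a b h).1 (k, w) - g.1 (k, w)‖ ≤ ε := by
  obtain ⟨m, hm, hest⟩ := exists_ell ha hρ hb1 hb2 hab
  let d : S a := T a (-b) g - f
  obtain ⟨C, hC0, hC⟩ := exists_bound d.1 (42 * ρ)
  obtain ⟨n, hn⟩ := exists_pow_lt_of_lt_one (x := ε / C) (y := (7 : ℝ) / 10) (by positivity)
    (by norm_num)
  have hn' : (7 / 10 : ℝ) ^ n / 5 * C ≤ ε := by
    rw [lt_div_iff₀ hC0] at hn
    have : 0 ≤ (7 / 10 : ℝ) ^ n * C := by positivity
    linarith
  refine ⟨⟨f.1 + psi^[n] m * d.1, (S a).add_mem f.2 (mul_mem (psi_iter_mem hm n) d.2)⟩,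
    fun k w hw => ⟨?_, ?_⟩⟩
  · simp only [ContinuousMap.add_apply, ContinuousMap.mul_apply, add_sub_cancel_left,
      psi_iter_apply, norm_mul]
    refine le_trans ?_ hn'
    gcongr
    · exact norm_psi_iter n (hest k w hw).1
    · exact hC k w (by linarith)
  · rw [T_apply]
    simp only [ContinuousMap.add_apply, ContinuousMap.mul_apply, psi_iter_apply]
    have e1 : d.1 (k, w + b) = g.1 (k, w) - f.1 (k, w + b) := by
      show (T a (-b) g).1 (k, w + b) - f.1 (k, w + b) = _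
      rw [T_apply]; simp
    have e2 : f.1 (k, w + b) + psi^[n] (m (k, w + b)) * d.1 (k, w + b) - g.1 (k, w)
        = -((1 - psi^[n] (m (k, w + b))) * d.1 (k, w + b)) := by rw [e1]; ring
    rw [e2, norm_neg, norm_mul, one_sub_psi_iter]
    refine le_trans ?_ hn'
    gcongr
    · exact norm_psi_iter n (hest k w hw).2
    · exact hC k _ (by have := norm_add_le w b; linarith)

theorem transitive [DiscreteTopology J] {a : J → ℂ}
    (ha : Tendsto (fun j => ‖a j‖) cofinite atTop)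
    (hgap : ∀ R : ℝ, ∃ ρ : ℝ, R ≤ ρ ∧ ∀ j, ‖a j‖ ≤ ρ ∨ 2000 * ρ ≤ ‖a j‖) {z : ℂ} (hz : z ≠ 0)
    (U V : Set (S a)) (hU : IsOpen U) (hV : IsOpen V) (hUn : U.Nonempty) (hVn : V.Nonempty) :
    ∃ n : ℕ, ∃ x ∈ U, (⇑(T a z))^[n] x ∈ V := by
  obtain ⟨f, hf⟩ := hUn
  obtain ⟨g, hg⟩ := hVn
  have hzp : 0 < ‖z‖ := norm_pos_iff.2 hz
  have key : ∀ i : ℕ, ∃ n : ℕ, ∃ h : S a, ∀ k w, ‖w‖ ≤ i →
      ‖h.1 (k, w) - f.1 (k, w)‖ ≤ 1 / ((i : ℝ) + 1) ∧
      ‖(T a (n * z) h).1 (k, w) - g.1 (k, w)‖ ≤ 1 / ((i : ℝ) + 1) := by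
    intro i
    obtain ⟨ρ, hρ, hab⟩ := hgap (max (i : ℝ) ‖z‖)
    have h1 : (i : ℝ) ≤ ρ := le_trans (le_max_left _ _) hρ
    have h2 : ‖z‖ ≤ ρ := le_trans (le_max_right _ _) hρ
    have hρ0 : 0 < ρ := lt_of_lt_of_le hzp h2
    let n : ℕ := ⌈40 * ρ / ‖z‖⌉₊
    have hn1 : 40 * ρ / ‖z‖ ≤ n := Nat.le_ceil _
    have hn2 : (n : ℝ) < 40 * ρ / ‖z‖ + 1 := Nat.ceil_lt_add_one (by positivity)
    have hnz : ‖(n : ℂ) * z‖ = n * ‖z‖ := by simp
    rw [div_le_iff₀ hzp] at hn1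
    have hn3 : (n : ℝ) * ‖z‖ ≤ 41 * ρ := by
      have : (n : ℝ) * ‖z‖ ≤ (40 * ρ / ‖z‖ + 1) * ‖z‖ := by gcongr
      rw [add_mul, div_mul_cancel₀ _ hzp.ne'] at this
      linarith
    obtain ⟨h, hh⟩ := exists_approx ha hρ0 (b := n * z) (by rw [hnz]; exact hn1)
      (by rw [hnz]; exact hn3) hab f g (ε := 1 / ((i : ℝ) + 1)) (by positivity)
    exact ⟨n, h, fun k w hw => hh k w (le_trans hw h1)⟩
  choose n h hh using key
  have ev : ∀ R ε : ℝ, 0 < ε → ∀ᶠ i : ℕ in atTop, R ≤ i ∧ 1 / ((i : ℝ) + 1) ≤ ε := by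
    intro R ε hε
    exact (tendsto_natCast_atTop_atTop.eventually (eventually_ge_atTop R)).and
      (tendsto_one_div_add_atTop_nhds_zero_nat.eventually (eventually_le_nhds hε))
  have t1 : Tendsto h atTop (𝓝 f) := by
    refine tendsto_subtype_rng.2 (tendsto_of_est fun R ε hε => ?_)
    filter_upwards [ev R ε hε] with i hi k w hw
    exact le_trans (hh i k w (le_trans hw hi.1)).1 hi.2
  have t2 : Tendsto (fun i => T a (n i * z) (h i)) atTop (𝓝 g) := by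
    refine tendsto_subtype_rng.2 (tendsto_of_est fun R ε hε => ?_)
    filter_upwards [ev R ε hε] with i hi k w hw
    exact le_trans (hh i k w (le_trans hw hi.1)).2 hi.2
  obtain ⟨i, h1, h2⟩ := ((t1.eventually (hU.mem_nhds hf)).and (t2.eventually (hV.mem_nhds hg))).exists
  exact ⟨n i, h i, h1, by rw [T_iter]; exact h2⟩

/-- an open set whose return times avoid the unit discs around the points `a j` -/
theorem exists_U [DiscreteTopology J] {a : J → ℂ}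
    (ha : Tendsto (fun j => ‖a j‖) cofinite atTop) (ha2 : ∀ j, 2 < ‖a j‖) :
    ∃ U : Set (S a), IsOpen U ∧ U.Nonempty ∧ (∀ x ∈ U, -x ∉ U) ∧
      ∀ (x : S a) (w w' : ℂ), T a w x ∈ U → T a w' x ∈ U → ∀ j, 1 < ‖w - w' - a j‖ := by
  let K1 : Set (M J) := ((univ : Set (OnePoint J)) ×ˢ ({false} : Set Bool)) ×ˢ ({0} : Set ℂ)
  let K2 : Set (M J) := ((univ : Set (OnePoint J)) ×ˢ ({true} : Set Bool)) ×ˢ closedBall (0 : ℂ) 1
  have c1 : IsCompact K1 := (isCompact_univ.prod isCompact_singleton).prod isCompact_singleton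
  have c2 : IsCompact K2 := (isCompact_univ.prod isCompact_singleton).prod (isCompact_closedBall _ _)
  have hinv : Tendsto (fun j => (a j)⁻¹) cofinite (𝓝 0) := by
    rw [tendsto_zero_iff_norm_tendsto_zero]
    simp only [norm_inv]
    exact ha.inv_tendsto_atTop
  obtain ⟨u, hu, hu0, hu1⟩ := exists_ext _ hinv
  refine ⟨Subtype.val ⁻¹' ({f : C(M J, ℂ) | MapsTo f K1 (ball 1 (1 / 2))} ∩
    {f : C(M J, ℂ) | MapsTo f K2 (ball 0 (1 / 2))}), ?_, ?_, ?_, ?_⟩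
  · exact ((ContinuousMap.isOpen_setOfPred_mapsTo c1 isOpen_ball).inter
      (ContinuousMap.isOpen_setOfPred_mapsTo c2 isOpen_ball)).preimage continuous_subtype_val
  · let χ : Bool → ℂ := fun β => if β then 0 else 1
    have hχ : Continuous χ := continuous_of_discreteTopology
    let e : C(M J, ℂ) := ⟨fun p => χ p.1.2 - u p.1.1 * p.2, by fun_prop⟩
    have he : ∀ k w, e (k, w) = χ k.2 - u k.1 * w := fun _ _ => rfl
    refine ⟨⟨e, fun k => ?_, fun j w => ?_⟩, ?_, ?_⟩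
    · simp only [he]; fun_prop
    · have h0 : a j ≠ 0 := by
        intro h; have := ha2 j; rw [h, norm_zero] at this; linarith
      rw [he, he]
      simp only [hu1, χ, if_true, Bool.false_eq_true, if_false]
      field_simp; ring
    · rintro ⟨⟨k, β⟩, w⟩ ⟨⟨-, h1⟩, h2⟩
      obtain rfl : β = false := h1
      obtain rfl : w = 0 := h2
      show e _ ∈ _
      rw [he]; simp [χ]
    · rintro ⟨⟨k, β⟩, w⟩ ⟨⟨-, h1⟩, h2⟩
      obtain rfl : β = true := h1
      have h3 : ‖w‖ ≤ 1 := by simpa using h2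
      show e _ ∈ _
      rw [he, mem_ball_zero_iff]
      have h4 : ‖u k‖ < 1 / 2 := by
        induction k using OnePoint.rec with
        | infty => rw [hu0]; simp
        | coe j =>
          rw [hu1, norm_inv, one_div]
          exact inv_strictAnti₀ two_pos (ha2 j)
      simp only [χ, if_true, zero_sub, norm_neg, norm_mul]
      calc ‖u k‖ * ‖w‖ ≤ ‖u k‖ * 1 := by gcongr
        _ < 1 / 2 := by rwa [mul_one]
  · intro x hx hx'
    have hp : (((OnePoint.infty, false), 0) : M J) ∈ K1 := ⟨⟨trivial, rfl⟩, rfl⟩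
    have h1 := hx.1 hp
    have h2 := hx'.1 hp
    rw [mem_ball, dist_eq_norm] at h1 h2
    have e : (-x : S a).1 ((OnePoint.infty, false), 0) = -x.1 ((OnePoint.infty, false), 0) := rfl
    rw [e] at h2
    have h3 := norm_add_le (x.1 ((OnePoint.infty, false), 0) - 1)
      (-x.1 ((OnePoint.infty, false), 0) - 1)
    have h4 : x.1 ((OnePoint.infty, false), 0) - 1 + (-x.1 ((OnePoint.infty, false), 0) - 1)
        = -2 := by ring
    rw [h4, norm_neg, Complex.norm_two] at h3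
    linarith
  · intro x w w' hw hw' j
    by_contra hcon
    have hp1 : ((((j : OnePoint J), false), 0) : M J) ∈ K1 := ⟨⟨trivial, rfl⟩, rfl⟩
    have hp2 : ((((j : OnePoint J), true), w - w' - a j) : M J) ∈ K2 :=
      ⟨⟨trivial, rfl⟩, by simpa using not_lt.1 hcon⟩
    have h1 := hw.1 hp1
    have h2 := hw'.2 hp2
    rw [T_apply, mem_ball, dist_eq_norm, zero_add] at h1
    rw [T_apply, mem_ball_zero_iff, x.2.2] at h2
    have e : w - w' - a j + w' + a j = w := by ring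
    rw [e] at h2
    have h3 := norm_sub_le (x.1 (((j : OnePoint J), false), w))
      (x.1 (((j : OnePoint J), false), w) - 1)
    rw [sub_sub_cancel, norm_one] at h3
    linarith

end Pool.Agent.H28Z.Ch
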