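import Mathlib

open Metric Set Filter Topology

noncomputable section

namespace Pool.Agent.H28Z.Da

/-- The open right half plane. -/
def HH : Set ℂ := {w | 0 < w.re}

/-- A box around `z` in the right half plane. -/
def Box (z : ℂ) (L : ℝ) : Set ℂ :=
  {w | z.re / L ≤ w.re ∧ w.re ≤ L * z.re ∧ |w.im - z.im| ≤ L * z.re}

/-- A self-map of the half plane that does not decrease real parts and whose iterates escape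
uniformly. -/
structure Dyn (φ : ℂ → ℂ) : Prop where
  maps : ∀ w ∈ HH, φ w ∈ HH
  dphi : DifferentiableOn ℂ φ HH
  re_le : ∀ w ∈ HH, w.re ≤ (φ w).re
  escape : ∀ R : ℝ, ∃ n0 : ℕ, ∀ n : ℕ, n0 ≤ n → ∀ w ∈ HH, R ≤ ‖φ^[n] w‖

/-- A composition operator on an algebra of functions on the half plane. -/
structure Setup {A : Type*} [NormedCommRing A] [NormedAlgebra ℂ A] (T : A →L[ℂ] A)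
    (ev : A →ₐ[ℂ] (ℂ → ℂ)) (φ : ℂ → ℂ) (N : ℕ) : Prop where
  dyn : Dyn φ
  diff : ∀ f, DifferentiableOn ℂ (ev f) HH
  le : ∀ f, ∀ w ∈ HH, ‖ev f w‖ ≤ ‖f‖
  norm_le : ∀ f (M : ℝ), 0 ≤ M → (∀ w ∈ HH, ‖ev f w‖ ≤ M) → ‖f‖ ≤ M
  comp : ∀ f, ∀ w ∈ HH, ev (T f) w = ev f (φ w)
  ex : ∀ (F : ℂ → ℂ) (c : ℂ), ContinuousOn F {w | 0 ≤ w.re} → DifferentiableOn ℂ F HH →
    (∀ ε : ℝ, 0 < ε → ∃ R : ℝ, ∀ w : ℂ, 0 ≤ w.re → R ≤ ‖w‖ → ‖F w - c‖ ≤ ε) →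
    ∃ f, ∀ w ∈ HH, ev f w = F w
  lim : ∃ L : A →L[ℂ] ℂ, ∀ f, ∀ ε : ℝ, 0 < ε → ∃ R : ℝ, ∀ w ∈ HH, R ≤ ‖w‖ → ‖ev f w - L f‖ ≤ ε
  pos : ∀ R : ℝ, ∃ c : ℝ, 0 < c ∧ ∀ w ∈ HH, ‖φ^[N] w‖ ≤ R → c ≤ (φ^[N] w).re
  lift : ∀ n : ℕ, N ≤ n → ∀ G : ℂ → ℂ, ContinuousOn G (closure (φ^[n] '' HH) ∩ HH) →
    DifferentiableOn ℂ (fun w => G (φ^[n] w)) HH →
    (∀ ε : ℝ, 0 < ε → ∃ R : ℝ, ∀ w ∈ closure (φ^[n] '' HH) ∩ HH, R ≤ ‖w‖ → ‖G w‖ ≤ ε) →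
    ∃ f, ∀ w ∈ HH, ev f w = G (φ^[n] w)
  nonhyp : ∀ ε : ℝ, 0 < ε → ∃ w ∈ HH, (φ w).re ≤ (1 + ε) * w.re

/-- The steps of the iteration become uniformly small in the hyperbolic sense. -/
def Small (φ : ℂ → ℂ) : Prop :=
  ∀ δ : ℝ, 0 < δ → ∃ n : ℕ, ∀ z ∈ φ^[n] '' HH, ‖φ z - z‖ ≤ δ * z.re

/-- A closed cone around the positive real axis. -/
def Cone (μ : ℝ) : Set ℂ := {τ | |τ.im| ≤ μ * τ.re}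

/-- Translations that keep `Ω` inside itself. -/
def Adm (Ω : Set ℂ) : Set ℂ := {τ | ∀ z ∈ Ω, z + τ ∈ Ω}

/-- The dual cone of the admissible translations. -/
def Dual (Ω : Set ℂ) : Set ℂ := {s | ∀ τ ∈ Adm Ω, 0 ≤ (s * τ).re}

/-- A proper open set that is invariant under translations from a cone. -/
structure Dom (Ω : Set ℂ) (μ : ℝ) : Prop where
  isOpen : IsOpen Ω
  nonempty : Ω.Nonempty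
  ne_univ : Ω ≠ univ
  pos : 0 < μ
  cone : Cone μ ⊆ Adm Ω

/-- The space of bounded holomorphic functions on `Ω` that vanish at infinity, with translations. -/
structure TrSetup {X : Type*} [NormedAddCommGroup X] [NormedSpace ℂ X] (Ω : Set ℂ)
    (e : X →ₗ[ℂ] (ℂ → ℂ)) (tr : ℂ → X →L[ℂ] X) : Prop where
  diff : ∀ f, DifferentiableOn ℂ (e f) Ω
  le : ∀ f, ∀ z ∈ Ω, ‖e f z‖ ≤ ‖f‖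
  norm_le : ∀ f (M : ℝ), 0 ≤ M → (∀ z ∈ Ω, ‖e f z‖ ≤ M) → ‖f‖ ≤ M
  van : ∀ f, ∀ ε : ℝ, 0 < ε → ∃ R : ℝ, ∀ z ∈ Ω, R ≤ ‖z‖ → ‖e f z‖ ≤ ε
  ex : ∀ F : ℂ → ℂ, DifferentiableOn ℂ F Ω → (∃ M : ℝ, ∀ z ∈ Ω, ‖F z‖ ≤ M) →
    (∀ ε : ℝ, 0 < ε → ∃ R : ℝ, ∀ z ∈ Ω, R ≤ ‖z‖ → ‖F z‖ ≤ ε) → ∃ f, ∀ z ∈ Ω, e f z = F z
  tr_eq : ∀ τ ∈ Adm Ω, ∀ f, ∀ z ∈ Ω, e (tr τ f) z = e f (z + τ)

/-- A translation model of `φ` on the invariant region `D`. -/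
structure Model (φ : ℂ → ℂ) (Ω D : Set ℂ) (H K : ℂ → ℂ) : Prop where
  isOpen : IsOpen D
  sub : D ⊆ HH
  dH : DifferentiableOn ℂ H D
  mH : ∀ w ∈ D, H w ∈ Ω
  dK : DifferentiableOn ℂ K Ω
  mK : ∀ ξ ∈ Ω, K ξ ∈ D
  KH : ∀ w ∈ D, K (H w) = w
  HK : ∀ ξ ∈ Ω, H (K ξ) = ξ
  conj : ∀ ξ ∈ Ω, φ (K ξ) = K (ξ + 1)
  propK : ∀ R : ℝ, ∃ R' : ℝ, ∀ ξ ∈ Ω, R' ≤ ‖ξ‖ → R ≤ ‖K ξ‖
  propH : ∀ R : ℝ, ∃ R' : ℝ, ∀ w ∈ D, R' ≤ ‖w‖ → R ≤ ‖H w‖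

/-- The straightening of the vector field `φ - id` near infinity. -/
structure Flow (φ σ k : ℂ → ℂ) (Ω : Set ℂ) (μ : ℝ) : Prop where
  isOpen : IsOpen Ω
  pos : 0 < μ
  le_one : μ ≤ 1
  cone : Cone μ ⊆ Adm Ω
  dσ : DifferentiableOn ℂ σ HH
  dk : DifferentiableOn ℂ k Ω
  mapk : ∀ ζ ∈ Ω, k ζ ∈ HH
  σk : ∀ ζ ∈ Ω, σ (k ζ) = ζ
  kσ : ∀ w ∈ HH, k (σ w) = w
  step : ∀ ζ ∈ Ω, ‖φ (k ζ) - k ζ‖ ≤ (k ζ).re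
  eta : ∀ (ζ : ℂ) (d : ℝ), 40 ≤ d → ball ζ d ⊆ Ω → ‖σ (φ (k ζ)) - ζ - 1‖ ≤ 8 / d
  deep : ∀ d : ℝ, ∃ δ : ℝ, 0 < δ ∧ ∀ w ∈ HH, ‖φ w - w‖ ≤ δ * w.re → ball (σ w) d ⊆ Ω

end Pool.Agent.H28Z.Da
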