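import Mathlib

set_option autoImplicit false

open PowerSeries Filter Topology
open scoped PowerSeries.WithPiTopology

namespace Pool.Agent.H28Z.Nwm

/-- all coefficients from index `N` on vanish -/
def Lo (N : ℕ) (p : ℂ⟦X⟧) : Prop := ∀ k, N ≤ k → coeff k p = 0

theorem Lo.zero {p : ℂ⟦X⟧} (h : Lo 0 p) : p = 0 := by
  ext k; simpa using h k (Nat.zero_le k)

theorem Lo.deriv {N : ℕ} {p : ℂ⟦X⟧} (h : Lo (N + 1) p) : Lo N (d⁄dX ℂ p) := fun k hk => by
  rw [coeff_derivative, h (k + 1) (by omega), zero_mul]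

theorem Lo.aop {N : ℕ} {p : ℂ⟦X⟧} (h : Lo N p) (c : ℂ) : Lo N (d⁄dX ℂ p + c • p) := fun k hk => by
  rw [map_add, coeff_derivative, h (k + 1) (by omega), zero_mul, map_smul, h k hk]; simp

theorem Lo.add {N : ℕ} {p q : ℂ⟦X⟧} (h : Lo N p) (h' : Lo N q) : Lo N (p + q) := fun k hk => by
  rw [map_add, h k hk, h' k hk, add_zero]

theorem Lo.smul {N : ℕ} {p : ℂ⟦X⟧} (h : Lo N p) (c : ℂ) : Lo N (c • p) := fun k hk => by
  rw [map_smul, h k hk, smul_zero]

theorem Lo.eq_zero_of_dvd {N : ℕ} {p : ℂ⟦X⟧} (h : Lo N p) (h' : X ^ N ∣ p) : p = 0 := by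
  ext k
  rcases lt_or_ge k N with hk | hk
  · simpa using X_pow_dvd_iff.1 h' k hk
  · simpa using h k hk

theorem Lo.eq_zero_of_aop {N : ℕ} {p : ℂ⟦X⟧} (h : Lo N p) {c : ℂ} (hc : c ≠ 0)
    (h' : d⁄dX ℂ p + c • p = 0) : p = 0 := by
  induction N with
  | zero => exact h.zero
  | succ N ih =>
    refine ih fun k hk => ?_
    have := congrArg (coeff k) h'
    rw [map_add, coeff_derivative, h (k + 1) (by omega), zero_mul, map_smul, zero_add,
      map_zero, smul_eq_mul] at this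
    exact (mul_eq_zero.1 this).resolve_left hc

theorem dvd_deriv {M : ℕ} {p : ℂ⟦X⟧} (h : X ^ (M + 1) ∣ p) : X ^ M ∣ d⁄dX ℂ p :=
  X_pow_dvd_iff.2 fun m hm => by
    rw [coeff_derivative, X_pow_dvd_iff.1 h (m + 1) (by omega), zero_mul]

theorem isUnit_exp : IsUnit (exp ℂ) := by
  rw [isUnit_iff_constantCoeff]; simp

theorem deriv_mul_exp (p : ℂ⟦X⟧) : d⁄dX ℂ (p * exp ℂ) = (d⁄dX ℂ p + (1 : ℂ) • p) * exp ℂ := by
  rw [Derivation.leibniz, derivative_exp]; simp only [smul_eq_mul, one_smul]; ring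

theorem deriv_mul_exp2 (p : ℂ⟦X⟧) :
    d⁄dX ℂ (p * exp ℂ ^ 2) = (d⁄dX ℂ p + (2 : ℂ) • p) * exp ℂ ^ 2 := by
  rw [pow_two, ← mul_assoc, deriv_mul_exp, deriv_mul_exp, two_smul]
  simp only [one_smul]; ring

theorem indep2 (N a : ℕ) : ∀ q1 q2 : ℂ⟦X⟧, Lo a q1 → Lo N q2 →
    X ^ (N + a) ∣ q1 + q2 * exp ℂ → q2 = 0 := by
  induction a with
  | zero =>
    intro q1 q2 h1 h2 h
    rw [h1.zero, zero_add, add_zero, isUnit_exp.dvd_mul_right] at h
    exact h2.eq_zero_of_dvd h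
  | succ a ih =>
    intro q1 q2 h1 h2 h
    have := dvd_deriv (M := N + a) h
    rw [map_add, deriv_mul_exp] at this
    exact h2.eq_zero_of_aop one_ne_zero (ih _ _ h1.deriv (h2.aop 1) this)

theorem indep3 (N a : ℕ) : ∀ q0 q1 q2 : ℂ⟦X⟧, Lo a q0 → Lo N q1 → Lo N q2 →
    X ^ (N + N + a) ∣ q0 + q1 * exp ℂ + q2 * exp ℂ ^ 2 → q1 = 0 ∧ q2 = 0 := by
  induction a with
  | zero =>
    intro q0 q1 q2 h0 h1 h2 h
    have e : q0 + q1 * exp ℂ + q2 * exp ℂ ^ 2 = (q1 + q2 * exp ℂ) * exp ℂ := by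
      rw [h0.zero]; ring
    rw [e, add_zero, isUnit_exp.dvd_mul_right] at h
    have e2 := indep2 N N q1 q2 h1 h2 h
    refine ⟨h1.eq_zero_of_dvd ?_, e2⟩
    rw [e2, zero_mul, add_zero, pow_add] at h
    exact dvd_of_mul_right_dvd h
  | succ a ih =>
    intro q0 q1 q2 h0 h1 h2 h
    have := dvd_deriv (M := N + N + a) h
    rw [map_add, map_add, deriv_mul_exp, deriv_mul_exp2] at this
    obtain ⟨e1, e2⟩ := ih _ _ _ h0.deriv (h1.aop 1) (h2.aop 2) this
    exact ⟨h1.eq_zero_of_aop one_ne_zero e1, h2.eq_zero_of_aop two_ne_zero e2⟩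

/-- index set of the new basis -/
abbrev I (N : ℕ) : Type := Fin 3 × Fin N

/-- the candidate basis vectors -/
noncomputable def bv {N : ℕ} (h : ℂ⟦X⟧) (p : I N) : ℂ⟦X⟧ := X ^ (p.2 : ℕ) * h ^ (p.1 : ℕ)

/-- truncation to the first `3 N` coefficients -/
noncomputable def tr (N : ℕ) : ℂ⟦X⟧ →ₗ[ℂ] (I N → ℂ) :=
  LinearMap.pi fun q => coeff (finProdFinEquiv q : ℕ)

theorem tr_apply (N : ℕ) (p : ℂ⟦X⟧) (q : I N) : tr N p q = coeff (finProdFinEquiv q : ℕ) p := rfl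

theorem tr_eq_zero_iff (N : ℕ) (p : ℂ⟦X⟧) : tr N p = 0 ↔ X ^ (3 * N) ∣ p := by
  rw [X_pow_dvd_iff]
  constructor
  · intro h m hm
    have := congrFun h (finProdFinEquiv.symm ⟨m, hm⟩)
    rwa [tr_apply, Equiv.apply_symm_apply] at this
  · intro h; funext q
    exact h _ (finProdFinEquiv q).2

/-- the matrix of the candidate basis -/
noncomputable def mat (N : ℕ) (h : ℂ⟦X⟧) : Matrix (I N) (I N) ℂ :=
  Matrix.of fun q p => tr N (bv h p) q

theorem mat_mulVec (N : ℕ) (h : ℂ⟦X⟧) (v : I N → ℂ) :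
    (mat N h).mulVec v = tr N (∑ p, v p • bv h p) := by
  funext q
  simp [Matrix.mulVec, dotProduct, mat, mul_comm]

/-- coordinates in the candidate basis -/
noncomputable def psi (N : ℕ) (h : ℂ⟦X⟧) : ℂ⟦X⟧ →ₗ[ℂ] (I N → ℂ) :=
  (Matrix.mulVecLin (mat N h)⁻¹).comp (tr N)

theorem psi_apply (N : ℕ) (h p : ℂ⟦X⟧) : psi N h p = (mat N h)⁻¹.mulVec (tr N p) := rfl

theorem psi_kill (N : ℕ) (h q : ℂ⟦X⟧) : psi N h (X ^ (3 * N) * q) = 0 := by
  rw [psi_apply, (tr_eq_zero_iff N _).2 (dvd_mul_right _ _), Matrix.mulVec_zero]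

theorem psi_bv {N : ℕ} {h : ℂ⟦X⟧} (hd : (mat N h).det ≠ 0) (p : I N) :
    psi N h (bv h p) = Pi.single p 1 := by
  have e : tr N (bv h p) = (mat N h).mulVec (Pi.single p 1) := by
    funext q; simp [mat]
  rw [psi_apply, e, Matrix.mulVec_mulVec, Matrix.nonsing_inv_mul _ (isUnit_iff_ne_zero.2 hd),
    Matrix.one_mulVec]

theorem psi_recon {N : ℕ} {h : ℂ⟦X⟧} (hd : (mat N h).det ≠ 0) (p : ℂ⟦X⟧) (k : ℕ)
    (hk : k < 3 * N) : coeff k (∑ q, psi N h p q • bv h q) = coeff k p := by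
  have e : tr N (∑ q, psi N h p q • bv h q) = tr N p := by
    rw [← mat_mulVec, psi_apply, Matrix.mulVec_mulVec,
      Matrix.mul_nonsing_inv _ (isUnit_iff_ne_zero.2 hd), Matrix.one_mulVec]
  have := congrFun e (finProdFinEquiv.symm ⟨k, hk⟩)
  rwa [tr_apply, tr_apply, Equiv.apply_symm_apply] at this

theorem det_inf (N : ℕ) (w0 : ℂ) : (mat N (exp ℂ - C w0)).det ≠ 0 := by
  intro hd
  obtain ⟨v, hv, h0⟩ := Matrix.exists_mulVec_eq_zero_iff.2 hd
  rw [mat_mulVec, tr_eq_zero_iff] at h0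
  let P : Fin 3 → ℂ⟦X⟧ := fun i => ∑ j : Fin N, v (i, j) • X ^ (j : ℕ)
  have hP : ∀ i, Lo N (P i) := fun i k hk => by
    simp only [P, map_sum, map_smul, coeff_X_pow]
    refine Finset.sum_eq_zero fun j _ => ?_
    rw [if_neg (by have := j.2; omega), smul_zero]
  have hc : ∀ i (j : Fin N), coeff (j : ℕ) (P i) = v (i, j) := fun i j => by
    simp only [P, map_sum, map_smul, coeff_X_pow]
    rw [Finset.sum_eq_single j]
    · simp
    · intro b _ hb
      rw [if_neg (fun e => hb (Fin.ext e.symm)), smul_zero]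
    · simp
  have e : ∑ p : I N, v p • bv (exp ℂ - C w0) p
      = (P 0 + (-w0) • P 1 + (w0 ^ 2) • P 2) + (P 1 + (-2 * w0) • P 2) * exp ℂ
        + P 2 * exp ℂ ^ 2 := by
    have e1 : ∀ i : Fin 3, ∑ j : Fin N, v (i, j) • bv (exp ℂ - C w0) (i, j)
        = P i * (exp ℂ - C w0) ^ (i : ℕ) := fun i => by
      simp only [P, bv, Finset.sum_mul, smul_mul_assoc]
    rw [Fintype.sum_prod_type, Fin.sum_univ_three, e1, e1, e1]
    simp only [smul_eq_C_mul, map_neg, map_mul, map_pow, map_ofNat]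
    simp only [Fin.val_zero, Fin.val_one, Fin.val_two]
    ring
  rw [e, show 3 * N = N + N + N by ring] at h0
  have l0 : Lo N (P 0 + (-w0) • P 1 + (w0 ^ 2) • P 2) :=
    ((hP 0).add ((hP 1).smul _)).add ((hP 2).smul _)
  obtain ⟨e1, e2⟩ := indep3 N N _ _ _ l0 ((hP 1).add ((hP 2).smul _)) (hP 2) h0
  rw [e1, e2] at h0
  rw [e2, smul_zero, add_zero] at e1
  simp only [e1, smul_zero, add_zero, zero_mul] at h0
  have e0 : P 0 = 0 := (hP 0).eq_zero_of_dvd (dvd_trans (pow_dvd_pow _ (by omega)) h0)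
  apply hv
  funext ⟨i, j⟩
  rw [← hc]
  fin_cases i
  · simp [e0]
  · simp [e1]
  · simp [e2]

theorem continuous_mat (N : ℕ) : Continuous (mat N) := by
  refine continuous_matrix fun q p => ?_
  exact (WithPiTopology.continuous_coeff ℂ _).comp (continuous_const.mul (continuous_id.pow _))

theorem psi_tendsto {N : ℕ} {h : ℕ → ℂ⟦X⟧} {h0 : ℂ⟦X⟧} (ht : Tendsto h atTop (𝓝 h0))
    (hd : (mat N h0).det ≠ 0) (k i : ℕ) (q : I N) :
    Tendsto (fun m => psi N (h m) (X ^ k * h m ^ i) q) atTop (𝓝 (psi N h0 (X ^ k * h0 ^ i) q)) := by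
  have c1 : ContinuousAt (fun g : ℂ⟦X⟧ => (mat N g)⁻¹) h0 := by
    refine ContinuousAt.comp (g := Inv.inv) (continuousAt_matrix_inv _ ?_)
      (continuous_mat N).continuousAt
    rw [Ring.inverse_eq_inv']
    exact continuousAt_inv₀ hd
  have c2 : ∀ r : I N, ContinuousAt (fun g : ℂ⟦X⟧ => tr N (X ^ k * g ^ i) r) h0 := fun r =>
    ((WithPiTopology.continuous_coeff ℂ _).comp
      (continuous_const.mul (continuous_id.pow _))).continuousAt
  have c3 : ContinuousAt (fun g : ℂ⟦X⟧ => psi N g (X ^ k * g ^ i) q) h0 := by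
    simp only [psi_apply, Matrix.mulVec, dotProduct]
    refine tendsto_finsetSum _ fun r _ => ContinuousAt.mul ?_ (c2 r)
    exact (continuous_apply_apply q r).continuousAt.comp c1
  exact c3.tendsto.comp ht

theorem det_eventually {N : ℕ} {h : ℕ → ℂ⟦X⟧} {h0 : ℂ⟦X⟧} (ht : Tendsto h atTop (𝓝 h0))
    (hd : (mat N h0).det ≠ 0) : ∀ᶠ m in atTop, (mat N (h m)).det ≠ 0 :=
  (((continuous_mat N).matrix_det.tendsto h0).comp ht).eventually_ne hd

/-- the polynomial `w (c X)` -/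
noncomputable def wp (N : ℕ) (w : ℕ → ℂ) (c : ℂ) : ℂ⟦X⟧ :=
  ∑ j : Fin N, (w j * c ^ (j : ℕ)) • X ^ (j : ℕ)

/-- the series `(1 + X / n) ^ n - w (X / n)` -/
noncomputable def hh (N : ℕ) (w : ℕ → ℂ) (n : ℕ) : ℂ⟦X⟧ :=
  (1 + (n : ℂ)⁻¹ • X) ^ n - wp N w (n : ℂ)⁻¹

theorem coeff_one_add_pow (c : ℂ) (n k : ℕ) :
    coeff k ((1 + c • X : ℂ⟦X⟧) ^ n) = c ^ k * (n.choose k : ℂ) := by
  have e : (1 + c • X : ℂ⟦X⟧) = rescale c (1 + X) := by
    rw [map_add, map_one, rescale_X, smul_eq_C_mul]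
  rw [e, ← map_pow, coeff_rescale]
  congr 1
  have : ((1 + X : ℂ⟦X⟧)) ^ n = (((1 + Polynomial.X : Polynomial ℂ) ^ n : Polynomial ℂ) : ℂ⟦X⟧) := by
    simp
  rw [this, Polynomial.coeff_coe, Polynomial.coeff_one_add_X_pow]

theorem hh_tendsto {N : ℕ} (hN : 0 < N) (w : ℕ → ℂ) :
    Tendsto (hh N w) atTop (𝓝 (exp ℂ - C (w 0))) := by
  have t0 : Tendsto (fun n : ℕ => (n : ℂ)⁻¹) atTop (𝓝 0) := tendsto_inv_atTop_nhds_zero_nat (𝕜 := ℂ)
  refine Tendsto.sub ?_ ?_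
  · rw [WithPiTopology.tendsto_iff_coeff_tendsto]
    intro k
    simp only [coeff_one_add_pow, coeff_exp]
    have h1 := isEquivalent_choose k
    have h2 : Tendsto (fun n : ℕ => ((n : ℝ)⁻¹) ^ k * (n.choose k : ℝ)) atTop
        (𝓝 (1 / (k.factorial : ℝ))) := by
      have h3 : Asymptotics.IsEquivalent atTop (fun n : ℕ => ((n : ℝ)⁻¹) ^ k * (n.choose k : ℝ))
          (fun n : ℕ => ((n : ℝ)⁻¹) ^ k * ((n : ℝ) ^ k / k.factorial)) :=
        (Asymptotics.IsEquivalent.refl).mul h1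
      refine h3.symm.tendsto_nhds (tendsto_const_nhds.congr' ?_)
      filter_upwards [eventually_gt_atTop 0] with n hn
      have : (n : ℝ) ≠ 0 := by positivity
      rw [inv_pow]
      field_simp
    have h4 := (Complex.continuous_ofReal.tendsto _).comp h2
    convert h4 using 2
    · simp
    · simp
  · have hc : Continuous (wp N w) := by
      unfold wp
      refine continuous_finsetSum _ fun j _ => ?_
      simp only [smul_eq_C_mul]
      have hj : Continuous fun c : ℂ => w j * c ^ (j : ℕ) := by fun_prop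
      exact (WithPiTopology.continuous_C.comp hj).mul continuous_const
    have e : wp N w 0 = C (w 0) := by
      unfold wp
      rw [Finset.sum_eq_single (⟨0, hN⟩ : Fin N)]
      · simp [smul_eq_C_mul]
      · intro b _ hb
        have : (b : ℕ) ≠ 0 := fun e => hb (Fin.ext e)
        simp [this]
      · simp
    rw [← e]
    exact (hc.tendsto 0).comp t0

end Pool.Agent.H28Z.Nwm
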