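import Pool.Agent.H28Z.NwmStep

set_option autoImplicit false
set_option linter.deprecated false

open Filter Topology

namespace Pool.Agent.H28Z.Nwm

/-- passing to the limit of a sequence of small perturbations -/
theorem exists_limit {Z σ : Type*} [MetricSpace Z] [CompleteSpace Z] (p : σ → Z)
    (Inv : ℕ → σ → Prop) (O : ℕ → Set Z) (hO : ∀ k, IsOpen (O k)) (s0 : σ) (h0 : Inv 0 s0)
    (step : ∀ k s, Inv k s → ∀ ε : ℝ, 0 < ε →
      ∃ s', Inv (k + 1) s' ∧ dist (p s') (p s) < ε ∧ p s' ∈ O k) :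
    ∃ z ∈ closure (Set.range p), ∀ k, z ∈ O k := by
  have key : ∀ (k : ℕ) (t : σ × ℝ), Inv k t.1 ∧ 0 < t.2 → ∃ t' : σ × ℝ, (Inv (k + 1) t'.1 ∧ 0 < t'.2) ∧
      dist (p t'.1) (p t.1) ≤ t.2 / 2 ∧ t'.2 ≤ t.2 / 2 ∧ Metric.closedBall (p t'.1) t'.2 ⊆ O k := by
    intro k t ht
    obtain ⟨s', h1, h2, h3⟩ := step k t.1 ht.1 (t.2 / 2) (by linarith [ht.2])
    obtain ⟨r, hr, hsub⟩ := Metric.nhds_basis_closedBall.mem_iff.1 ((hO k).mem_nhds h3)
    refine ⟨(s', min r (t.2 / 2)), ⟨h1, lt_min hr (by linarith [ht.2])⟩, h2.le, min_le_right _ _,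
      (Metric.closedBall_subset_closedBall (min_le_left _ _)).trans hsub⟩
  choose! F hF using key
  let t : ℕ → σ × ℝ := fun k => Nat.rec (s0, 1) F k
  have ts : ∀ k, t (k + 1) = F k (t k) := fun _ => rfl
  have hI : ∀ k, Inv k (t k).1 ∧ 0 < (t k).2 := by
    intro k
    induction k with
    | zero => exact ⟨h0, one_pos⟩
    | succ k ih => exact (hF k _ ih).1
  have hr : ∀ k, (t k).2 ≤ 1 / 2 ^ k := by
    intro k
    induction k with
    | zero => show (1 : ℝ) ≤ 1 / 2 ^ 0; norm_num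
    | succ k ih =>
      have := (hF k _ (hI k)).2.2.1
      rw [ts, pow_succ, ← div_div]; linarith
  have hc : CauchySeq fun k => p (t k).1 := by
    refine cauchySeq_of_le_geometric_two (C := 1) fun k => ?_
    have := (hF k _ (hI k)).2.1
    rw [dist_comm, ts]
    have h2 := hr k
    have : (1 : ℝ) / 2 / 2 ^ k = 1 / 2 ^ k / 2 := by ring
    linarith
  obtain ⟨z, hz⟩ := cauchySeq_tendsto_of_complete hc
  have hd : ∀ k j, dist (p (t (k + j)).1) (p (t k).1) ≤ (t k).2 - (t (k + j)).2 := by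
    intro k j
    induction j with
    | zero => simp
    | succ j ih =>
      have h1 := (hF (k + j) _ (hI (k + j))).2.1
      have h2 := (hF (k + j) _ (hI (k + j))).2.2.1
      rw [← ts] at h1 h2
      have := dist_triangle (p (t (k + j + 1)).1) (p (t (k + j)).1) (p (t k).1)
      show dist (p (t (k + j + 1)).1) _ ≤ _ - (t (k + j + 1)).2
      linarith
  refine ⟨z, mem_closure_of_tendsto hz (Eventually.of_forall fun k => ⟨_, rfl⟩), fun k => ?_⟩
  have h3 := (hF k _ (hI k)).2.2.2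
  rw [← ts] at h3
  refine h3 (Metric.isClosed_closedBall.mem_of_tendsto hz ?_)
  filter_upwards [eventually_ge_atTop (k + 1)] with j hj
  obtain ⟨i, rfl⟩ := Nat.exists_eq_add_of_le hj
  have := hd (k + 1) i
  have := (hI (k + 1 + i)).2
  rw [Metric.mem_closedBall]; linarith

theorem spectrum_one_add {A : Type*} [NormedRing A] [NormedAlgebra ℂ A] [CompleteSpace A]
    [Nontrivial A] {K : A} (h : ∀ k : ℕ, ∃ N : ℕ, ‖K ^ N‖ < (1 / ((k : ℝ) + 1)) ^ N) :
    spectrum ℂ (1 + K) = {1} := by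
  have hsub : spectrum ℂ (1 + K) ⊆ {1} := by
    intro z hz
    by_contra hne
    have hμ : z - 1 ≠ 0 := sub_ne_zero.2 hne
    obtain ⟨k, hk⟩ := exists_nat_one_div_lt (norm_pos_iff.2 hμ)
    obtain ⟨N, hN⟩ := h k
    have h1 : ‖((z - 1)⁻¹ • K) ^ N‖ < 1 := by
      rw [smul_pow, norm_smul, norm_pow, norm_inv, inv_pow,
        inv_mul_lt_iff₀ (pow_pos (norm_pos_iff.2 hμ) N), mul_one]
      exact lt_of_lt_of_le hN (pow_le_pow_left₀ (by positivity) hk.le N)
    have h2 := isUnit_one_sub_of_norm_lt_one h1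
    rw [← mul_neg_geom_sum] at h2
    have hc : Commute (1 - (z - 1)⁻¹ • K) (∑ i ∈ Finset.range N, ((z - 1)⁻¹ • K) ^ i) :=
      Commute.sum_right _ _ _ fun i _ =>
        ((Commute.one_left _).sub_left (Commute.refl _)).pow_right i
    have h3 := (hc.isUnit_mul_iff.1 h2).1
    apply spectrum.mem_iff.1 hz
    have e : algebraMap ℂ A z - (1 + K) = algebraMap ℂ A (z - 1) * (1 - (z - 1)⁻¹ • K) := by
      rw [← Algebra.smul_def, smul_sub, smul_smul, mul_inv_cancel₀ hμ, one_smul,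
        Algebra.algebraMap_eq_smul_one, sub_smul, one_smul]
      abel
    rw [e]
    exact ((isUnit_iff_ne_zero.2 hμ).map (algebraMap ℂ A)).mul h3
  exact (Set.Nonempty.subset_singleton_iff (spectrum.nonempty _)).1 hsub

variable {E : Type*} [NormedAddCommGroup E] [NormedSpace ℂ E]

theorem exists_op [CompleteSpace E] [TopologicalSpace.SeparableSpace E]
    (hE : ¬ FiniteDimensional ℂ E) :
    ∃ (K : E →L[ℂ] E) (B : E →L[ℂ] StrongDual ℂ E) (x0 : E),
      Dense (Set.range fun n : ℕ => ((1 + K) ^ n) x0) ∧ (∀ x y, B (K x) y = B x (K y)) ∧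
      B x0 x0 = 1 ∧ ∀ k : ℕ, ∃ N : ℕ, ‖K ^ N‖ < (1 / ((k : ℝ) + 1)) ^ N := by
  have hnt : Nontrivial E := by
    by_contra h
    rw [not_nontrivial_iff_subsingleton] at h
    exact hE inferInstance
  obtain ⟨x0, hx0⟩ := exists_ne (0 : E)
  obtain ⟨f0, hf0⟩ : ∃ f : E →L[ℂ] ℂ, f x0 = 1 := SeparatingDual.exists_eq_one hx0
  let S0 : St x0 :=
    { N := 1
      pos := one_pos
      e := fun k => if k = 0 then x0 else 0
      f := fun _ => f0
      a := fun k => if k = 0 then 1 else 0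
      e0 := rfl
      eN := fun k hk => if_neg (by omega)
      aN := fun k hk => if_neg (by omega)
      a0 := rfl
      bi := fun i hi j hj => by
        obtain rfl : i = 0 := by omega
        obtain rfl : j = 0 := by omega
        simpa using hf0 }
  let u : ℕ → E := fun k => TopologicalSpace.denseSeq E (Nat.unpair k).1
  let d : ℕ → E := fun k => Nat.casesOn k 0 u
  let O : ℕ → Set ((E →L[ℂ] E) × (E →L[ℂ] StrongDual ℂ E)) := fun k =>
    (⋃ n : ℕ, {z | dist (((1 + z.1) ^ n) x0) (d k) < 1 / ((k : ℝ) + 1)}) ∩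
      ⋃ N : ℕ, {z | ‖z.1 ^ N‖ < (1 / ((k : ℝ) + 1)) ^ N}
  have hO : ∀ k, IsOpen (O k) := fun k =>
    (isOpen_iUnion fun n => isOpen_lt (by fun_prop) continuous_const).inter
      (isOpen_iUnion fun n => isOpen_lt (by fun_prop) continuous_const)
  obtain ⟨z, hz, hzO⟩ := exists_limit
    (fun S : St x0 => ((S.K, S.B) : (E →L[ℂ] E) × (E →L[ℂ] StrongDual ℂ E)))
    (fun k S => S.has (d k)) O hO S0 (by simp [St.has, d]) (by
      intro k S hS ε hε
      obtain ⟨S', n, h1, h2, h3, h4⟩ := S.step hE (d k) hS (d (k + 1))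
        (ε := min ε (1 / ((k : ℝ) + 1))) (by positivity)
      refine ⟨S', h4, ?_, Set.mem_iUnion.2 ⟨n, lt_of_lt_of_le h3 (min_le_right _ _)⟩,
        Set.mem_iUnion.2 ⟨S'.N, ?_⟩⟩
      · rw [Prod.dist_eq, max_lt_iff]
        exact ⟨lt_of_lt_of_le h1 (min_le_left _ _), lt_of_lt_of_le h2 (min_le_left _ _)⟩
      · show ‖S'.K ^ S'.N‖ < _
        rw [S'.K_pow, norm_zero]; positivity)
  refine ⟨z.1, z.2, x0, ?_, fun x y => ?_, ?_, fun k => Set.mem_iUnion.1 (hzO k).2⟩
  · rw [Metric.dense_iff]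
    intro x r hr
    obtain ⟨i, hi⟩ := Metric.denseRange_iff.1 (TopologicalSpace.denseRange_denseSeq E) x (r / 2)
      (by positivity)
    obtain ⟨j, hj⟩ := exists_nat_one_div_lt (show 0 < r / 2 by positivity)
    obtain ⟨n, hn⟩ := Set.mem_iUnion.1 (hzO (Nat.pair i j + 1)).1
    refine ⟨_, ?_, n, rfl⟩
    have e : d (Nat.pair i j + 1) = TopologicalSpace.denseSeq E i := by simp [d, u]
    have h1 : dist (((1 + z.1) ^ n) x0) (TopologicalSpace.denseSeq E i)
        < 1 / (((Nat.pair i j + 1 : ℕ) : ℝ) + 1) := by rw [← e]; exact hn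
    have h2 : 1 / (((Nat.pair i j + 1 : ℕ) : ℝ) + 1) ≤ 1 / ((j : ℝ) + 1) := by
      refine one_div_le_one_div_of_le (by positivity) ?_
      have : j ≤ Nat.pair i j + 1 := le_trans (Nat.right_le_pair i j) (Nat.le_succ _)
      have : (j : ℝ) ≤ ((Nat.pair i j + 1 : ℕ) : ℝ) := by exact_mod_cast this
      linarith
    have h3 := dist_triangle (((1 + z.1) ^ n) x0) (TopologicalSpace.denseSeq E i) x
    rw [dist_comm] at hi
    rw [Metric.mem_ball]; linarith
  · have hcl : IsClosed {z : (E →L[ℂ] E) × (E →L[ℂ] StrongDual ℂ E) |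
        z.2 (z.1 x) y = z.2 x (z.1 y)} := isClosed_eq (by fun_prop) (by fun_prop)
    exact closure_minimal (by rintro _ ⟨S, rfl⟩; exact S.B_K x y) hcl hz
  · have hcl : IsClosed {z : (E →L[ℂ] E) × (E →L[ℂ] StrongDual ℂ E) | z.2 x0 x0 = 1} :=
      isClosed_eq (by fun_prop) continuous_const
    exact closure_minimal (by rintro _ ⟨S, rfl⟩; exact S.B_x0) hcl hz

theorem not_cyclic {T : E →L[ℂ] E} {B : E →L[ℂ] StrongDual ℂ E} {x0 : E}
    (hB : ∀ x y, B (T x) y = B x (T y)) (h0 : B x0 x0 = 1) (v : E × E) :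
    ¬ Dense ((Submodule.span ℂ (Set.range fun n : ℕ => ((T.prodMap T) ^ n) v) :
      Submodule ℂ (E × E)) : Set (E × E)) := by
  intro hd
  have hpow : ∀ n : ℕ, ((T.prodMap T) ^ n) v = ((T ^ n) v.1, (T ^ n) v.2) := by
    intro n
    induction n with
    | zero => rfl
    | succ n ih => rw [pow_succ', pow_succ', ContinuousLinearMap.mul_apply, ih]; rfl
  have hBn : ∀ (n : ℕ) x y, B ((T ^ n) x) y = B x ((T ^ n) y) := by
    intro n
    induction n with
    | zero => intro x y; rfl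
    | succ n ih =>
      intro x y
      rw [pow_succ', ContinuousLinearMap.mul_apply, hB, ih, ← pow_succ', pow_succ,
        ContinuousLinearMap.mul_apply]
  have key : ∀ L : (E × E) →L[ℂ] ℂ, (∀ n : ℕ, L ((T ^ n) v.1, (T ^ n) v.2) = 0) → ∀ u, L u = 0 := by
    intro L hL u
    have hle : Submodule.span ℂ (Set.range fun n : ℕ => ((T.prodMap T) ^ n) v)
        ≤ LinearMap.ker (L : (E × E) →ₗ[ℂ] ℂ) := by
      rw [Submodule.span_le]
      rintro _ ⟨n, rfl⟩
      show L _ = 0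
      simp only [hpow]; exact hL n
    exact closure_minimal hle L.isClosed_ker (hd u)
  have h1 : ∀ y, B v.1 y = 0 := by
    intro y
    have := key ((B.flip v.2).comp (ContinuousLinearMap.fst ℂ E E)
      - (B v.1).comp (ContinuousLinearMap.snd ℂ E E)) (fun n => sub_eq_zero.2 (hBn n v.1 v.2)) (0, y)
    simpa using this
  have h2 := key ((B.flip x0).comp (ContinuousLinearMap.fst ℂ E E))
    (fun n => (hBn n v.1 x0).trans (h1 _)) (x0, 0)
  simp [h0] at h2

theorem main [CompleteSpace E] [TopologicalSpace.SeparableSpace E]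
    (hE : ¬ FiniteDimensional ℂ E) :
    ∃ T : E →L[ℂ] E, (∃ x : E, Dense (Set.range fun n : ℕ => (T ^ n) x)) ∧
      (¬ ∃ v : E × E, Dense ((Submodule.span ℂ (Set.range fun n : ℕ => ((T.prodMap T) ^ n) v) :
        Submodule ℂ (E × E)) : Set (E × E))) ∧ spectrum ℂ T = {1} := by
  obtain ⟨K, B, x0, h1, h2, h3, h4⟩ := exists_op hE
  have hnt : Nontrivial E := by
    by_contra h
    rw [not_nontrivial_iff_subsingleton] at h
    exact hE inferInstance
  refine ⟨1 + K, ⟨x0, h1⟩, ?_, spectrum_one_add h4⟩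
  rintro ⟨v, hv⟩
  exact not_cyclic (B := B) (x0 := x0) (fun x y => by simp [h2]) h3 v hv

end Pool.Agent.H28Z.Nwm
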