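import Mathlib

set_option autoImplicit false
set_option linter.deprecated false
set_option linter.unusedSimpArgs false

open PowerSeries Filter Topology Finset

namespace Pool.Agent.H28Z.Nwm

variable {E : Type*} [NormedAddCommGroup E] [NormedSpace ℂ E]

/-- a finite stage of the construction: a nilpotent Jordan chain starting at `x0`, with
biorthogonal functionals and the moments of a bilinear form -/
structure St (x0 : E) where
  N : ℕ
  pos : 0 < N
  e : ℕ → E
  f : ℕ → E →L[ℂ] ℂ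
  a : ℕ → ℂ
  e0 : e 0 = x0
  eN : ∀ k, N ≤ k → e k = 0
  aN : ∀ k, N ≤ k → a k = 0
  a0 : a 0 = 1
  bi : ∀ i < N, ∀ j < N, f i (e j) = if i = j then 1 else 0

variable {x0 : E}

/-- the nilpotent operator of a stage -/
noncomputable def St.K (S : St x0) : E →L[ℂ] E :=
  ∑ j ∈ range S.N, (S.f j).smulRight (S.e (j + 1))

/-- the bilinear form of a stage -/
noncomputable def St.B (S : St x0) : E →L[ℂ] E →L[ℂ] ℂ :=
  ∑ i ∈ range S.N, ∑ j ∈ range S.N, S.a (i + j) • (S.f i).smulRight (S.f j)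

/-- the vector lies in the span of the chain -/
def St.has (S : St x0) (y : E) : Prop := y = ∑ j ∈ range S.N, S.f j y • S.e j

theorem St.K_apply (S : St x0) (x : E) : S.K x = ∑ j ∈ range S.N, S.f j x • S.e (j + 1) := by
  simp [St.K, ContinuousLinearMap.sum_apply]

theorem St.B_apply (S : St x0) (x y : E) :
    S.B x y = ∑ i ∈ range S.N, ∑ j ∈ range S.N, S.a (i + j) * (S.f i x * S.f j y) := by
  simp [St.B, ContinuousLinearMap.sum_apply]

theorem St.bi' (S : St x0) {i : ℕ} (hi : i < S.N) (j : ℕ) :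
    S.f i (S.e j) = if i = j then 1 else 0 := by
  rcases lt_or_ge j S.N with hj | hj
  · exact S.bi i hi j hj
  · rw [S.eN j hj, map_zero, if_neg (by omega)]

theorem St.K_e (S : St x0) (l : ℕ) : S.K (S.e l) = S.e (l + 1) := by
  rcases lt_or_ge l S.N with hl | hl
  · rw [S.K_apply, sum_eq_single l]
    · rw [S.bi' hl]; simp
    · intro b hb hne; rw [S.bi' (mem_range.1 hb), if_neg hne, zero_smul]
    · intro h; exact absurd (mem_range.2 hl) h
  · rw [S.eN l hl, S.eN (l + 1) (by omega), map_zero]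

theorem St.K_pow_e (S : St x0) (k l : ℕ) : (S.K ^ k) (S.e l) = S.e (l + k) := by
  induction k with
  | zero => simp
  | succ k ih => rw [pow_succ', ContinuousLinearMap.mul_apply, ih, S.K_e, add_assoc]

theorem St.K_pow (S : St x0) : S.K ^ S.N = 0 := by
  ext x
  obtain ⟨k, hk⟩ : ∃ k, S.N = k + 1 := ⟨S.N - 1, by have := S.pos; omega⟩
  have : S.K ^ S.N = S.K ^ k * S.K := by rw [hk, pow_succ]
  rw [this, ContinuousLinearMap.mul_apply, S.K_apply, map_sum]
  refine sum_eq_zero fun j _ => ?_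
  rw [map_smul, S.K_pow_e, S.eN _ (by omega), smul_zero]

theorem St.B_e_left (S : St x0) (l : ℕ) (y : E) :
    S.B (S.e l) y = ∑ j ∈ range S.N, S.a (l + j) * S.f j y := by
  rcases lt_or_ge l S.N with hl | hl
  · rw [S.B_apply, sum_eq_single l]
    · simp [S.bi' hl]
    · intro b hb hne; simp [S.bi' (mem_range.1 hb), hne]
    · intro h; exact absurd (mem_range.2 hl) h
  · rw [S.eN l hl, map_zero, ContinuousLinearMap.zero_apply]
    exact (sum_eq_zero fun j _ => by rw [S.aN _ (by omega), zero_mul]).symm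

theorem St.B_symm (S : St x0) (x y : E) : S.B x y = S.B y x := by
  rw [S.B_apply, S.B_apply, sum_comm]
  refine sum_congr rfl fun i _ => sum_congr rfl fun j _ => ?_
  rw [add_comm, mul_comm (S.f j x)]

theorem St.B_K_left (S : St x0) (x y : E) :
    S.B (S.K x) y = ∑ i ∈ range S.N, ∑ j ∈ range S.N, S.a (i + j + 1) * (S.f i x * S.f j y) := by
  rw [S.K_apply, map_sum, ContinuousLinearMap.sum_apply]
  refine sum_congr rfl fun i _ => ?_
  rw [map_smul, ContinuousLinearMap.smul_apply, S.B_e_left, smul_eq_mul, mul_sum]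
  refine sum_congr rfl fun j _ => ?_
  rw [show i + 1 + j = i + j + 1 by ring]; ring

theorem St.B_K (S : St x0) (x y : E) : S.B (S.K x) y = S.B x (S.K y) := by
  rw [S.B_symm x, S.B_K_left, S.B_K_left, sum_comm]
  refine sum_congr rfl fun i _ => sum_congr rfl fun j _ => ?_
  rw [add_comm j, mul_comm (S.f j x)]

theorem St.B_e_e (S : St x0) (j l : ℕ) : S.B (S.e j) (S.e l) = S.a (j + l) := by
  rw [S.B_e_left]
  rcases lt_or_ge l S.N with hl | hl
  · rw [sum_eq_single l]
    · simp [S.bi' hl]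
    · intro b hb hne; simp [S.bi' (mem_range.1 hb), hne]
    · intro h; exact absurd (mem_range.2 hl) h
  · rw [S.aN _ (by omega)]
    exact sum_eq_zero fun b hb => by
      rw [S.bi' (mem_range.1 hb), if_neg (by have := mem_range.1 hb; omega), mul_zero]

theorem St.B_x0 (S : St x0) : S.B x0 x0 = 1 := by
  have := S.B_e_e 0 0
  rwa [S.e0, S.a0] at this

theorem dvd_sub_trunc (N : ℕ) (p : ℂ⟦X⟧) :
    X ^ N ∣ p - ∑ k ∈ range N, coeff k p • X ^ k := by
  rw [X_pow_dvd_iff]
  intro m hm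
  simp only [map_sub, map_sum, map_smul, coeff_X_pow]
  rw [sum_eq_single m]
  · simp
  · intro b _ hb; rw [if_neg (Ne.symm hb), smul_zero]
  · intro h; exact absurd (mem_range.2 hm) h

theorem kill_congr {V : Type*} [AddCommGroup V] [Module ℂ V] {N : ℕ} (L : ℂ⟦X⟧ →ₗ[ℂ] V)
    (hL : ∀ q, L (X ^ N * q) = 0) {p p' : ℂ⟦X⟧} (h : X ^ N ∣ p - p') : L p = L p' := by
  obtain ⟨q, hq⟩ := h
  rw [← sub_eq_zero, ← map_sub, hq, hL]

theorem St.ofAbs (N : ℕ) (hN : 0 < N) (c : ℂ) (hc : c ≠ 0) (J : ℂ⟦X⟧ →ₗ[ℂ] E)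
    (Λ : E → ℂ⟦X⟧) (fc : ℕ → E →L[ℂ] ℂ) (hfc : ∀ k x, fc k x = coeff k (Λ x))
    (Φ : ℂ⟦X⟧ →ₗ[ℂ] ℂ) (hJ : ∀ q, J (X ^ N * q) = 0) (hΦ : ∀ q, Φ (X ^ N * q) = 0)
    (hΛ : ∀ p, ∀ k < N, coeff k (Λ (J p)) = coeff k p) (J1 : J 1 = x0) (Φ1 : Φ 1 = 1) :
    ∃ S : St x0, (∀ x, S.K x = c • J (X * Λ x)) ∧ (∀ x y, S.B x y = Φ (Λ x * Λ y)) ∧
      ∀ x, J (Λ x) = x → S.has x := by
  let S : St x0 :=
    { N := N
      pos := hN
      e := fun k => c ^ k • J (X ^ k)
      f := fun k => (c ^ k)⁻¹ • fc k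
      a := fun k => c ^ k * Φ (X ^ k)
      e0 := by simp [J1]
      eN := fun k hk => by
        obtain ⟨r, rfl⟩ := Nat.exists_eq_add_of_le hk
        rw [pow_add X, hJ, smul_zero]
      aN := fun k hk => by
        obtain ⟨r, rfl⟩ := Nat.exists_eq_add_of_le hk
        rw [pow_add X, hΦ, mul_zero]
      a0 := by simp [Φ1]
      bi := fun i hi j _ => by
        simp only [ContinuousLinearMap.smul_apply, map_smul, hfc, hΛ _ i hi, coeff_X_pow,
          smul_eq_mul]
        split_ifs with h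
        · subst h; field_simp
        · simp }
  have hN' : S.N = N := rfl
  have he : ∀ k, S.e k = c ^ k • J (X ^ k) := fun _ => rfl
  have hf : ∀ k x, S.f k x = (c ^ k)⁻¹ * coeff k (Λ x) := fun k x => by
    show ((c ^ k)⁻¹ • fc k) x = _
    rw [ContinuousLinearMap.smul_apply, hfc, smul_eq_mul]
  have ha : ∀ k, S.a k = c ^ k * Φ (X ^ k) := fun _ => rfl
  refine ⟨S, fun x => ?_, fun x y => ?_, fun x hx => ?_⟩
  · have e1 : J (X * Λ x) = J (X * ∑ k ∈ range N, coeff k (Λ x) • X ^ k) := by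
      refine kill_congr J hJ ?_
      rw [← mul_sub]; exact Dvd.dvd.mul_left (dvd_sub_trunc N _) _
    rw [S.K_apply, e1, mul_sum, map_sum, smul_sum, hN']
    refine sum_congr rfl fun k _ => ?_
    rw [hf, he, mul_smul_comm, map_smul, ← pow_succ', smul_smul, smul_smul]
    congr 1
    field_simp
    ring
  · have e1 : Φ (Λ x * Λ y) = Φ ((∑ k ∈ range N, coeff k (Λ x) • X ^ k) *
        ∑ k ∈ range N, coeff k (Λ y) • X ^ k) := by
      refine kill_congr Φ hΦ ?_
      have h1 := dvd_sub_trunc N (Λ x)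
      have h2 := dvd_sub_trunc N (Λ y)
      set u := ∑ k ∈ range N, coeff k (Λ x) • (X : ℂ⟦X⟧) ^ k
      set v := ∑ k ∈ range N, coeff k (Λ y) • (X : ℂ⟦X⟧) ^ k
      have : Λ x * Λ y - u * v = (Λ x - u) * Λ y + u * (Λ y - v) := by ring
      rw [this]
      exact dvd_add (Dvd.dvd.mul_right h1 _) (Dvd.dvd.mul_left h2 _)
    rw [S.B_apply, e1, sum_mul_sum, map_sum, hN']
    refine sum_congr rfl fun i _ => ?_
    rw [map_sum]
    refine sum_congr rfl fun j _ => ?_
    rw [hf, hf, ha, smul_mul_smul_comm, map_smul, ← pow_add, smul_eq_mul, pow_add c]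
    field_simp
  · unfold St.has
    have e1 : J (Λ x) = J (∑ k ∈ range N, coeff k (Λ x) • X ^ k) :=
      kill_congr J hJ (dvd_sub_trunc N _)
    conv_lhs => rw [← hx, e1, map_sum]
    rw [hN']
    refine sum_congr rfl fun k _ => ?_
    rw [hf, he, map_smul, smul_smul]
    congr 1
    field_simp

theorem exists_li {Y : Type*} [AddCommGroup Y] [Module ℂ Y] (hY : ¬ FiniteDimensional ℂ Y)
    (d : Y) (r : ℕ) : ∃ v : Fin (r + 1) → Y, LinearIndependent ℂ v ∧
      d ∈ Submodule.span ℂ (Set.range v) := by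
  have hr : ∀ n : ℕ, (n : Cardinal) < Module.rank ℂ Y := fun n =>
    lt_of_lt_of_le Cardinal.natCast_lt_aleph0 (not_lt.1 fun h => hY (Module.rank_lt_aleph0_iff.1 h))
  induction r with
  | zero =>
    by_cases hd : d = 0
    · obtain ⟨x, hx⟩ := exists_linearIndependent_cons_of_lt_rank (R := ℂ)
        (v := (Fin.elim0 : Fin 0 → Y)) linearIndependent_empty_type (hr 0)
      exact ⟨_, hx, by rw [hd]; exact Submodule.zero_mem _⟩
    · refine ⟨fun _ => d, ?_, Submodule.subset_span ⟨0, rfl⟩⟩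
      exact (linearIndependent_unique_iff (ι := Fin 1)).2 hd
  | succ r ih =>
    obtain ⟨v, hv, hd⟩ := ih
    obtain ⟨x, hx⟩ := exists_linearIndependent_cons_of_lt_rank hv (hr _)
    refine ⟨_, hx, Submodule.span_mono ?_ hd⟩
    rintro _ ⟨i, rfl⟩
    exact ⟨i.succ, rfl⟩

theorem exists_dual {ι : Type*} [Fintype ι] [DecidableEq ι] {v : ι → E}
    (hv : LinearIndependent ℂ v) :
    ∃ ζ : ι → E →L[ℂ] ℂ, ∀ i j, ζ i (v j) = if i = j then 1 else 0 := by
  let Z := Submodule.span ℂ (Set.range v)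
  let b := Module.Basis.span hv
  have : FiniteDimensional ℂ Z := Module.Finite.of_basis b
  have key : ∀ i, ∃ g : E →L[ℂ] ℂ, ∀ j, g (v j) = if i = j then 1 else 0 := by
    intro i
    obtain ⟨g, hg, -⟩ := exists_extension_norm_eq Z (LinearMap.toContinuousLinearMap (b.coord i))
    refine ⟨g, fun j => ?_⟩
    have e : v j = ((b j : Z) : E) := (Module.Basis.coe_span_apply hv j).symm
    rw [e, hg]
    simp [Finsupp.single_apply, eq_comm]
  choose ζ hζ using key
  exact ⟨ζ, hζ⟩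

theorem St.exists_ext (hE : ¬ FiniteDimensional ℂ E) (S : St x0) (d : E) :
    ∃ (g : Fin 3 × Fin S.N → E) (γ : Fin 3 × Fin S.N → E →L[ℂ] ℂ),
      (∀ j : Fin S.N, g (0, j) = S.e j) ∧ (∀ j : Fin S.N, γ (0, j) = S.f j) ∧
      (∀ p q, γ p (g q) = if p = q then 1 else 0) ∧ d = ∑ p, γ p d • g p := by
  let P : E →L[ℂ] E := ∑ j : Fin S.N, (S.f j).smulRight (S.e j)
  have hP : ∀ x, P x = ∑ j : Fin S.N, S.f j x • S.e j := fun x => by
    simp [P, ContinuousLinearMap.sum_apply]
  have hfP : ∀ (i : Fin S.N) x, S.f i (P x) = S.f i x := fun i x => by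
    rw [hP, map_sum, sum_eq_single i]
    · simp [S.bi' i.2]
    · intro b _ hb
      rw [map_smul, S.bi' i.2, if_neg (fun e => hb (Fin.ext e.symm)), smul_zero]
    · simp
  have hPe : ∀ j : Fin S.N, P (S.e j) = S.e j := fun j => by
    rw [hP, sum_eq_single j]
    · simp [S.bi' j.2]
    · intro b _ hb
      rw [S.bi' b.2, if_neg (fun e => hb (Fin.ext e)), zero_smul]
    · simp
  let F : E →ₗ[ℂ] (Fin S.N → ℂ) := LinearMap.pi fun j => (S.f j : E →ₗ[ℂ] ℂ)
  have hY : ¬ FiniteDimensional ℂ (LinearMap.ker F) := fun h => by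
    have : Module.Finite ℂ (E ⧸ LinearMap.ker F) := Module.Finite.equiv F.quotKerEquivRange.symm
    exact hE (Module.Finite.of_submodule_quotient (LinearMap.ker F))
  have hd : d - P d ∈ LinearMap.ker F := by
    rw [LinearMap.mem_ker]; funext j
    show S.f j (d - P d) = 0
    rw [map_sub, hfP, sub_self]
  obtain ⟨v, hv, hdv⟩ := exists_li hY ⟨_, hd⟩ (2 * S.N - 1)
  have hcard : 2 * S.N = 2 * S.N - 1 + 1 := by have := S.pos; omega
  let σ : Fin 2 × Fin S.N ≃ Fin (2 * S.N - 1 + 1) := finProdFinEquiv.trans (finCongr hcard)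
  let u : Fin 2 × Fin S.N → E := fun p => (v (σ p) : E)
  have hu : LinearIndependent ℂ u :=
    (hv.map' (LinearMap.ker F).subtype (Submodule.ker_subtype _)).comp σ σ.injective
  have hfu : ∀ (j : Fin S.N) p, S.f j (u p) = 0 := fun j p => congrFun (v (σ p)).2 j
  have hPu : ∀ p, P (u p) = 0 := fun p => by simp [hP, hfu]
  have hdu : d - P d ∈ Submodule.span ℂ (Set.range u) := by
    have := Submodule.mem_map_of_mem (f := (LinearMap.ker F).subtype) hdv
    rw [Submodule.map_span] at this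
    refine Submodule.span_mono ?_ this
    rintro _ ⟨_, ⟨i, rfl⟩, rfl⟩
    exact ⟨σ.symm i, by simp [u]⟩
  obtain ⟨ζ, hζ⟩ := exists_dual hu
  obtain ⟨c, hc⟩ := (Submodule.mem_span_range_iff_exists_fun ℂ).1 hdu
  have hcζ : ∀ p, ζ p (d - P d) = c p := fun p => by
    rw [← hc, map_sum, sum_eq_single p]
    · simp [hζ]
    · intro b _ hb; simp [hζ, Ne.symm hb]
    · simp
  refine ⟨fun p => Fin.cases (S.e p.2) (fun i => u (i, p.2)) p.1,
    fun p => Fin.cases (S.f p.2) (fun i => (ζ (i, p.2)).comp (1 - P)) p.1,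
    fun _ => rfl, fun _ => rfl, ?_, ?_⟩
  · rintro ⟨i, j⟩ ⟨k, l⟩
    induction i using Fin.cases with
    | zero =>
      induction k using Fin.cases with
      | zero => simp [S.bi' j.2, Fin.ext_iff]
      | succ k => simp [hfu, (Fin.succ_ne_zero k).symm]
    | succ i =>
      induction k using Fin.cases with
      | zero => simp [hPe, Fin.succ_ne_zero i]
      | succ k => simp [hPu, hζ]
  · rw [Fintype.sum_prod_type, Fin.sum_univ_succ]
    simp only [Fin.cases_zero, Fin.cases_succ, ContinuousLinearMap.comp_apply,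
      ContinuousLinearMap.sub_apply, ContinuousLinearMap.one_apply, hcζ]
    rw [← hP, ← Fintype.sum_prod_type (f := fun p => c p • u p), hc]
    abel

end Pool.Agent.H28Z.Nwm
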