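import Pool.Agent.H28Z.NwmAlg
import Pool.Agent.H28Z.NwmState

set_option autoImplicit false
set_option linter.deprecated false
set_option linter.unusedSimpArgs false

open PowerSeries Filter Topology Finset
open scoped PowerSeries.WithPiTopology

namespace Pool.Agent.H28Z.Nwm

/-- scaling exponents of the new basis vectors -/
def kap (N : ℕ) (p : I N) : ℤ :=
  (![-(4 * N * (p.2 : ℕ)), 1 + (p.2 : ℕ) - 4 * N * (p.2 : ℕ), -(4 * N * N) + 2 * N] :
    Fin 3 → ℤ) p.1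

theorem kap0 (N : ℕ) (j : Fin N) : kap N (0, j) = -(4 * N * (j : ℕ)) := rfl
theorem kap1 (N : ℕ) (j : Fin N) : kap N (1, j) = 1 + (j : ℕ) - 4 * N * (j : ℕ) := rfl
theorem kap2 (N : ℕ) (j : Fin N) : kap N (2, j) = -(4 * N * N) + 2 * N := rfl

theorem kap_ge (N : ℕ) (p : I N) : -(4 * N * N) + 2 * N ≤ kap N p := by
  obtain ⟨i, j⟩ := p
  have hj : ((j : ℕ) : ℤ) + 1 ≤ N := by exact_mod_cast j.2
  have h0 : (0 : ℤ) ≤ (j : ℕ) := Int.natCast_nonneg _
  fin_cases i
  · show _ ≤ kap N (0, j); rw [kap0]; nlinarith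
  · show _ ≤ kap N (1, j); rw [kap1]; nlinarith
  · show _ ≤ kap N (2, j); rw [kap2]

theorem kap_le (N : ℕ) (p : I N) : kap N p ≤ 1 + (p.2 : ℕ) - 4 * N * (p.2 : ℕ) := by
  obtain ⟨i, j⟩ := p
  have hj : ((j : ℕ) : ℤ) + 1 ≤ N := by exact_mod_cast j.2
  have h0 : (0 : ℤ) ≤ (j : ℕ) := Int.natCast_nonneg _
  fin_cases i
  · show kap N (0, j) ≤ _; rw [kap0]; simp only; nlinarith
  · show kap N (1, j) ≤ _; rw [kap1]
  · show kap N (2, j) ≤ _; rw [kap2]; simp only; nlinarith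

theorem kap_neg1 (N : ℕ) (p q : I N) (h : (p.2 : ℕ) + 1 = N) :
    -(4 * N : ℤ) + kap N p - kap N q < 0 := by
  have h1 := kap_le N p
  have h2 := kap_ge N q
  have h3 : ((p.2 : ℕ) : ℤ) = N - 1 := by omega
  have h4 : (0 : ℤ) < N := by omega
  rw [h3] at h1
  nlinarith

theorem kap_neg2 (N : ℕ) (p q : I N) (r : Fin N)
    (h : N ≤ (p.2 : ℕ) + (q.2 : ℕ) ∨ 3 ≤ (p.1 : ℕ) + (q.1 : ℕ)) :
    kap N p + kap N q - kap N (0, r) < 0 := by
  have h1 := kap_le N p
  have h2 := kap_le N q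
  have hr : ((r : ℕ) : ℤ) + 1 ≤ N := by exact_mod_cast r.2
  have hr0 : (0 : ℤ) ≤ (r : ℕ) := Int.natCast_nonneg _
  have hp0 : (0 : ℤ) ≤ (p.2 : ℕ) := Int.natCast_nonneg _
  have hq0 : (0 : ℤ) ≤ (q.2 : ℕ) := Int.natCast_nonneg _
  have h5 : -kap N (0, r) ≤ 4 * N * (N - 1) := by rw [kap0]; nlinarith
  rcases h with h | h
  · have h' : (N : ℤ) ≤ (p.2 : ℕ) + (q.2 : ℕ) := by exact_mod_cast h
    nlinarith
  · have h6 : p.1 = 2 ∨ q.1 = 2 := by
      have := p.1.2; have := q.1.2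
      rcases (show (p.1 : ℕ) = 2 ∨ (q.1 : ℕ) = 2 by omega) with e | e
      · exact Or.inl (Fin.ext e)
      · exact Or.inr (Fin.ext e)
    rcases h6 with e | e
    · have : kap N p = -(4 * N * N) + 2 * N := by
        rw [← kap2 N p.2, ← e]
      nlinarith
    · have : kap N q = -(4 * N * N) + 2 * N := by
        rw [← kap2 N q.2, ← e]
      nlinarith

theorem zpow_tendsto {z : ℤ} (hz : z < 0) : Tendsto (fun m : ℕ => (m : ℂ) ^ z) atTop (𝓝 0) := by
  obtain ⟨k, rfl⟩ : ∃ k : ℕ, z = -((k + 1 : ℕ) : ℤ) := ⟨(-z - 1).toNat, by omega⟩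
  have t0 : Tendsto (fun n : ℕ => (n : ℂ)⁻¹) atTop (𝓝 0) := tendsto_inv_atTop_nhds_zero_nat (𝕜 := ℂ)
  have := t0.pow (k + 1)
  simp only [zpow_neg, zpow_natCast, ← inv_pow]
  simpa using this

variable {E : Type*} [NormedAddCommGroup E] [NormedSpace ℂ E] {x0 : E}

theorem St.step (hE : ¬ FiniteDimensional ℂ E) (S : St x0) (y : E) (hy : S.has y) (d : E)
    {ε : ℝ} (hε : 0 < ε) :
    ∃ (S' : St x0) (n : ℕ), dist S'.K S.K < ε ∧ dist S'.B S.B < ε ∧
      dist (((1 + S'.K) ^ n) x0) y < ε ∧ S'.has d := by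
  let N := S.N
  obtain ⟨g, γ, hg0, hγ0, hbi, hd⟩ : ∃ (g : I N → E) (γ : I N → E →L[ℂ] ℂ),
      (∀ j : Fin N, g (0, j) = S.e j) ∧ (∀ j : Fin N, γ (0, j) = S.f j) ∧
      (∀ p q, γ p (g q) = if p = q then 1 else 0) ∧ d = ∑ p, γ p d • g p := S.exists_ext hE d
  have hN : 0 < N := S.pos
  let w : ℕ → ℂ := fun j => S.f j y
  let h : ℕ → ℂ⟦X⟧ := fun m => hh N w (m ^ (4 * N))
  have ht : Tendsto h atTop (𝓝 (exp ℂ - C (w 0))) :=
    (hh_tendsto hN w).comp (tendsto_pow_atTop (by omega))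
  have hdet := det_eventually ht (det_inf N (w 0))
  have hlim := psi_tendsto ht (det_inf N (w 0))
  -- old data on the new basis
  have hfg : ∀ (l : ℕ) (hl : l < N) (p : I N), p.1 ≠ 0 → S.f l (g p) = 0 := by
    intro l hl p hp
    have := hbi (0, ⟨l, hl⟩) p
    rw [hγ0, if_neg (fun e => hp (by rw [← e]))] at this
    exact this
  have hKg : ∀ p : I N, p.1 ≠ 0 → S.K (g p) = 0 := by
    intro p hp
    rw [S.K_apply]
    exact sum_eq_zero fun l hl => by rw [hfg l (mem_range.1 hl) p hp, zero_smul]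
  have hBg : ∀ p q : I N, p.1 ≠ 0 ∨ q.1 ≠ 0 → S.B (g p) (g q) = 0 := by
    intro p q hpq
    rw [S.B_apply]
    refine sum_eq_zero fun l hl => sum_eq_zero fun r hr => ?_
    rcases hpq with hp | hq
    · rw [hfg l (mem_range.1 hl) p hp]; simp
    · rw [hfg r (mem_range.1 hr) q hq]; simp
  have hfQ : ∀ (l : ℕ), l < N → ∀ x, S.f l (∑ p, γ p x • g p) = S.f l x := by
    intro l hl x
    have e : S.f l = γ (0, ⟨l, hl⟩) := (hγ0 ⟨l, hl⟩).symm
    rw [e, map_sum, sum_eq_single (0, ⟨l, hl⟩)]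
    · simp [hbi]
    · intro b _ hb; simp [hbi, Ne.symm hb]
    · simp
  have hKQ : S.K = ∑ p, (γ p).smulRight (S.K (g p)) := by
    ext x
    have : S.K x = S.K (∑ p, γ p x • g p) := by
      rw [S.K_apply, S.K_apply]
      exact sum_congr rfl fun l hl => by rw [hfQ l (mem_range.1 hl)]
    rw [this]; simp [map_sum]
  have hBQ : S.B = ∑ p, ∑ q, S.B (g p) (g q) • (γ p).smulRight (γ q) := by
    ext x x'
    have : S.B x x' = S.B (∑ p, γ p x • g p) (∑ p, γ p x' • g p) := by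
      rw [S.B_apply, S.B_apply]
      exact sum_congr rfl fun l hl => sum_congr rfl fun r hr => by
        rw [hfQ l (mem_range.1 hl), hfQ r (mem_range.1 hr)]
    rw [this]
    simp only [map_sum, map_smul, ContinuousLinearMap.sum_apply, ContinuousLinearMap.smul_apply,
      ContinuousLinearMap.smulRight_apply, smul_eq_mul, mul_sum]
    rw [sum_comm]
    exact sum_congr rfl fun p _ => sum_congr rfl fun q _ => by ring
  -- new data
  let kk : ℕ → I N → E := fun m p => ∑ q, ((m : ℂ) ^ (-(4 * N : ℤ) + kap N p - kap N q) *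
    psi N (h m) (X ^ ((p.2 : ℕ) + 1) * h m ^ (p.1 : ℕ)) q) • g q
  let bb : ℕ → I N → I N → ℂ := fun m p q => ∑ r : Fin N,
    (m : ℂ) ^ (kap N p + kap N q - kap N (0, r)) *
      psi N (h m) (X ^ ((p.2 : ℕ) + (q.2 : ℕ)) * h m ^ ((p.1 : ℕ) + (q.1 : ℕ))) (0, r) * S.a r
  have tk : ∀ p, Tendsto (fun m => kk m p) atTop (𝓝 (S.K (g p))) := by
    intro p
    by_cases hj : (p.2 : ℕ) + 1 < N
    · let p' : I N := (p.1, ⟨p.2 + 1, hj⟩)
      have e : ∀ᶠ m : ℕ in atTop,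
          (m : ℂ) ^ (-(4 * N : ℤ) + kap N p - kap N p') • g p' = kk m p := by
        filter_upwards [hdet] with m hm
        have e1 : psi N (h m) (X ^ ((p.2 : ℕ) + 1) * h m ^ (p.1 : ℕ)) = Pi.single p' 1 :=
          psi_bv hm p'
        simp only [kk, e1]
        rw [sum_eq_single p']
        · simp
        · intro b _ hb; simp [hb]
        · simp
      refine Tendsto.congr' e ?_
      obtain ⟨i, j⟩ := p
      have hN' : (0 : ℤ) < N := by exact_mod_cast hN
      fin_cases i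
      · have e2 : -(4 * N : ℤ) + kap N (0, j) - kap N (0, ⟨j + 1, hj⟩) = 0 := by
          rw [kap0, kap0]; push_cast; ring
        show Tendsto (fun m : ℕ => (m : ℂ) ^ (-(4 * N : ℤ) + kap N (0, j) - kap N (0, ⟨j + 1, hj⟩))
          • g (0, ⟨j + 1, hj⟩)) atTop (𝓝 (S.K (g (0, j))))
        rw [e2, hg0, hg0, S.K_e]
        simp
      · have e2 : -(4 * N : ℤ) + kap N (1, j) - kap N (1, ⟨j + 1, hj⟩) < 0 := by
          rw [kap1, kap1]; push_cast; nlinarith
        show Tendsto (fun m : ℕ => (m : ℂ) ^ (-(4 * N : ℤ) + kap N (1, j) - kap N (1, ⟨j + 1, hj⟩))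
          • g (1, ⟨j + 1, hj⟩)) atTop (𝓝 (S.K (g (1, j))))
        rw [hKg (1, j) (by simp)]
        simpa using (zpow_tendsto e2).smul_const (g (1, ⟨j + 1, hj⟩))
      · have e2 : -(4 * N : ℤ) + kap N (2, j) - kap N (2, ⟨j + 1, hj⟩) < 0 := by
          rw [kap2, kap2]; nlinarith
        show Tendsto (fun m : ℕ => (m : ℂ) ^ (-(4 * N : ℤ) + kap N (2, j) - kap N (2, ⟨j + 1, hj⟩))
          • g (2, ⟨j + 1, hj⟩)) atTop (𝓝 (S.K (g (2, j))))
        rw [hKg (2, j) (by simp)]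
        simpa using (zpow_tendsto e2).smul_const (g (2, ⟨j + 1, hj⟩))
    · have hj' : (p.2 : ℕ) + 1 = N := by have := p.2.2; omega
      have e0 : S.K (g p) = ∑ q : I N, (0 * psi N (exp ℂ - C (w 0))
          (X ^ ((p.2 : ℕ) + 1) * (exp ℂ - C (w 0)) ^ (p.1 : ℕ)) q) • g q := by
        simp only [zero_mul, zero_smul, sum_const_zero]
        by_cases hp : p.1 = 0
        · have : p = (0, p.2) := by rw [← hp]
          rw [this, hg0, S.K_e, S.eN _ hj'.ge]
        · exact hKg p hp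
      rw [e0]
      exact tendsto_finsetSum _ fun q _ =>
        ((zpow_tendsto (kap_neg1 N p q hj')).mul (hlim _ _ q)).smul_const _
  have tb : ∀ p q, Tendsto (fun m => bb m p q) atTop (𝓝 (S.B (g p) (g q))) := by
    intro p q
    by_cases hc : N ≤ (p.2 : ℕ) + (q.2 : ℕ) ∨ 3 ≤ (p.1 : ℕ) + (q.1 : ℕ)
    · have e0 : S.B (g p) (g q) = ∑ r : Fin N, 0 * psi N (exp ℂ - C (w 0))
          (X ^ ((p.2 : ℕ) + (q.2 : ℕ)) * (exp ℂ - C (w 0)) ^ ((p.1 : ℕ) + (q.1 : ℕ))) (0, r)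
            * S.a r := by
        simp only [zero_mul, sum_const_zero]
        by_cases hp : p.1 = 0 ∧ q.1 = 0
        · have e1 : p = (0, p.2) := by rw [← hp.1]
          have e2 : q = (0, q.2) := by rw [← hp.2]
          rw [e1, e2, hg0, hg0, S.B_e_e]
          refine S.aN _ (hc.resolve_right ?_)
          rw [hp.1, hp.2]; simp
        · exact hBg p q (by tauto)
      rw [e0]
      exact tendsto_finsetSum _ fun r _ =>
        ((zpow_tendsto (kap_neg2 N p q r hc)).mul (hlim _ _ _)).mul_const _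
    · push Not at hc
      let p' : I N := (⟨p.1 + q.1, hc.2⟩, ⟨p.2 + q.2, hc.1⟩)
      refine tendsto_const_nhds.congr' ?_
      filter_upwards [hdet] with m hm
      have e1 : psi N (h m) (X ^ ((p.2 : ℕ) + (q.2 : ℕ)) * h m ^ ((p.1 : ℕ) + (q.1 : ℕ)))
          = Pi.single p' 1 := psi_bv hm p'
      simp only [bb, e1]
      by_cases hp : p.1 = 0 ∧ q.1 = 0
      · have e2 : p = (0, p.2) := by rw [← hp.1]
        have e3 : q = (0, q.2) := by rw [← hp.2]
        have e4 : p' = (0, ⟨p.2 + q.2, hc.1⟩) := by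
          refine Prod.ext (Fin.ext ?_) rfl
          show (p.1 : ℕ) + (q.1 : ℕ) = 0
          rw [hp.1, hp.2]; rfl
        have e5 : kap N p + kap N q - kap N (0, ⟨p.2 + q.2, hc.1⟩) = 0 := by
          have a1 : kap N p = -(4 * N * (p.2 : ℕ)) := by rw [← kap0, ← e2]
          have a2 : kap N q = -(4 * N * (q.2 : ℕ)) := by rw [← kap0, ← e3]
          rw [a1, a2, kap0]; push_cast; ring
        rw [sum_eq_single ⟨p.2 + q.2, hc.1⟩]
        · rw [e5, e4]
          conv_lhs => rw [e2, e3, hg0, hg0, S.B_e_e]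
          simp
        · intro b _ hb
          rw [e4, Pi.single_eq_of_ne (by simpa using hb)]; simp
        · simp
      · rw [hBg p q (by tauto)]
        refine (sum_eq_zero fun r _ => ?_).symm
        rw [Pi.single_eq_of_ne]
        · simp
        · intro e
          have : (0 : ℕ) = (p.1 : ℕ) + (q.1 : ℕ) := congrArg (fun s : I N => (s.1 : ℕ)) e
          exact hp ⟨Fin.ext (by simp only [Fin.val_zero]; omega),
            Fin.ext (by simp only [Fin.val_zero]; omega)⟩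
  have tK : Tendsto (fun m => ∑ p, (γ p).smulRight (kk m p)) atTop (𝓝 S.K) := by
    rw [hKQ]
    exact tendsto_finsetSum _ fun p _ =>
      ((ContinuousLinearMap.smulRightL ℂ E E (γ p)).continuous.tendsto _).comp (tk p)
  have tB : Tendsto (fun m => ∑ p, ∑ q, bb m p q • (γ p).smulRight (γ q)) atTop (𝓝 S.B) := by
    rw [hBQ]
    have : ContinuousAdd (E →L[ℂ] E →L[ℂ] ℂ) :=
      (inferInstance : IsTopologicalAddGroup (E →L[ℂ] E →L[ℂ] ℂ)).toContinuousAdd
    exact tendsto_finsetSum _ fun p _ => tendsto_finsetSum _ fun q _ => (tb p q).smul_const _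
  have tO : Tendsto (fun m : ℕ => y + (m : ℂ) ^ (-1 : ℤ) • g (1, ⟨0, hN⟩)) atTop (𝓝 y) := by
    simpa using ((zpow_tendsto (z := -1) (by norm_num)).smul_const (g (1, ⟨0, hN⟩))).const_add y
  have tB' : ∀ᶠ m in atTop, dist (∑ p, ∑ q, bb m p q • (γ p).smulRight (γ q)) S.B < ε :=
    (Metric.tendsto_nhds (α := E →L[ℂ] E →L[ℂ] ℂ)).1 tB ε hε
  obtain ⟨m, hm, hm0, h1, h2, h3⟩ := (hdet.and ((eventually_gt_atTop 0).and
    ((Metric.tendsto_nhds.1 tK ε hε).and (tB'.and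
      (Metric.tendsto_nhds.1 tO ε hε))))).exists
  have hM : (m : ℂ) ≠ 0 := by exact_mod_cast hm0.ne'
  let J : ℂ⟦X⟧ →ₗ[ℂ] E := ∑ q, (m : ℂ) ^ (-kap N q) •
    ((LinearMap.proj q).comp (psi N (h m))).smulRight (g q)
  have hJ : ∀ p, J p = ∑ q, ((m : ℂ) ^ (-kap N q) * psi N (h m) p q) • g q := fun p => by
    simp [J, LinearMap.sum_apply, smul_smul]
  let Λ : E → ℂ⟦X⟧ := fun x => ∑ p, ((m : ℂ) ^ kap N p * γ p x) • bv (h m) p
  let fc : ℕ → E →L[ℂ] ℂ := fun k => ∑ p, ((m : ℂ) ^ kap N p * coeff k (bv (h m) p)) • γ p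
  let Φ : ℂ⟦X⟧ →ₗ[ℂ] ℂ := ∑ r : Fin N, ((m : ℂ) ^ (-kap N (0, r)) * S.a r) •
    ((LinearMap.proj ((0, r) : I N)).comp (psi N (h m)))
  have hΦ : ∀ p, Φ p = ∑ r : Fin N, (m : ℂ) ^ (-kap N (0, r)) * S.a r * psi N (h m) p (0, r) :=
    fun p => by simp [Φ, LinearMap.sum_apply]
  have hJbv : ∀ p, J (bv (h m) p) = (m : ℂ) ^ (-kap N p) • g p := fun p => by
    rw [hJ, psi_bv hm, sum_eq_single p]
    · simp
    · intro b _ hb; simp [hb]
    · simp
  have hγJ : ∀ q p, γ q (J p) = (m : ℂ) ^ (-kap N q) * psi N (h m) p q := fun q p => by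
    rw [hJ, map_sum, sum_eq_single q]
    · simp [hbi]
    · intro b _ hb; simp [hbi, Ne.symm hb]
    · simp
  have hcan : ∀ z : ℤ, (m : ℂ) ^ z * (m : ℂ) ^ (-z) = 1 := fun z => by
    rw [← zpow_add₀ hM]; simp
  have hΛJ : ∀ p, ∀ k < 3 * N, coeff k (Λ (J p)) = coeff k p := by
    intro p k hk
    rw [← psi_recon hm p k hk]
    simp only [Λ, hγJ, ← mul_assoc, hcan, one_mul]
  have hone : (1 : ℂ⟦X⟧) = bv (h m) ((0, ⟨0, hN⟩) : I N) := by simp [bv]
  have hJk : ∀ q, J (X ^ (3 * N) * q) = 0 := fun q => by simp [hJ, psi_kill]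
  have J1 : J 1 = x0 := by
    rw [hone, hJbv, kap0, hg0]; simp [S.e0]
  have Φ1 : Φ 1 = 1 := by
    rw [hone, hΦ, psi_bv hm, sum_eq_single ⟨0, hN⟩]
    · simp [kap0, S.a0]
    · intro b _ hb; rw [Pi.single_eq_of_ne (by simpa using hb)]; simp
    · simp
  set c : ℂ := ((m ^ (4 * N) : ℕ) : ℂ)⁻¹ with hc
  have hcz : c = (m : ℂ) ^ (-(4 * N : ℤ)) := by
    rw [hc, zpow_neg]; norm_cast
  obtain ⟨S', hK', hB', hhas⟩ := St.ofAbs (x0 := x0) (3 * N) (by omega) c
    (by rw [hcz]; exact zpow_ne_zero _ hM) J Λ fc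
    (fun k x => by
      simp only [fc, Λ, map_sum, map_smul, ContinuousLinearMap.sum_apply,
        ContinuousLinearMap.smul_apply, smul_eq_mul]
      exact sum_congr rfl fun p _ => by ring)
    Φ hJk (fun q => by simp [hΦ, psi_kill]) hΛJ J1 Φ1
  have eK : S'.K = ∑ p, (γ p).smulRight (kk m p) := by
    ext x
    rw [hK']
    simp only [Λ, mul_sum, map_sum, smul_sum, mul_smul_comm, map_smul,
      ContinuousLinearMap.sum_apply, ContinuousLinearMap.smulRight_apply, kk]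
    refine sum_congr rfl fun p _ => ?_
    have e : X * bv (h m) p = X ^ ((p.2 : ℕ) + 1) * h m ^ (p.1 : ℕ) := by
      rw [bv, pow_succ']; ring
    rw [e, hJ, smul_sum, smul_sum]
    refine sum_congr rfl fun q _ => ?_
    rw [smul_smul, smul_smul, smul_smul, hcz, sub_eq_add_neg, zpow_add₀ hM, zpow_add₀ hM]
    congr 1; ring
  have eB : S'.B = ∑ p, ∑ q, bb m p q • (γ p).smulRight (γ q) := by
    ext x x'
    rw [hB']
    simp only [Λ, sum_mul_sum, map_sum, smul_mul_smul_comm, map_smul,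
      ContinuousLinearMap.sum_apply, ContinuousLinearMap.smulRight_apply,
      ContinuousLinearMap.smul_apply, bb, smul_eq_mul]
    refine sum_congr rfl fun p _ => sum_congr rfl fun q _ => ?_
    have e : bv (h m) p * bv (h m) q
        = X ^ ((p.2 : ℕ) + (q.2 : ℕ)) * h m ^ ((p.1 : ℕ) + (q.1 : ℕ)) := by
      rw [bv, bv, pow_add, pow_add]; ring
    rw [e, hΦ, mul_sum, sum_mul]
    refine sum_congr rfl fun r _ => ?_
    rw [sub_eq_add_neg, zpow_add₀ hM, zpow_add₀ hM]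
    ring
  have eO : ∀ (n : ℕ) p, ((1 + S'.K) ^ n) (J p) = J ((1 + c • X) ^ n * p) := by
    intro n
    induction n with
    | zero => intro p; simp
    | succ n ih =>
      intro p
      have e1 : S'.K (J p) = J ((c • X) * p) := by
        rw [hK', smul_mul_assoc, map_smul]
        congr 1
        refine kill_congr J hJk ?_
        rw [← mul_sub]
        refine Dvd.dvd.mul_left (X_pow_dvd_iff.2 fun k hk => ?_) _
        rw [map_sub, hΛJ p k hk, sub_self]
      rw [pow_succ, ContinuousLinearMap.mul_apply, ContinuousLinearMap.add_apply,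
        ContinuousLinearMap.one_apply, e1, ← map_add, ih]
      congr 1; ring
  have eO2 : ((1 + S'.K) ^ (m ^ (4 * N))) x0 = y + (m : ℂ) ^ (-1 : ℤ) • g (1, ⟨0, hN⟩) := by
    have e1 : (1 + c • X : ℂ⟦X⟧) ^ (m ^ (4 * N))
        = wp N w c + bv (h m) ((1, ⟨0, hN⟩) : I N) := by
      simp [bv, h, hh, hc]
    have e2 : J (wp N w c) = y := by
      rw [wp, map_sum]
      conv_rhs => rw [hy, ← Fin.sum_univ_eq_sum_range (fun j => S.f j y • S.e j)]
      refine sum_congr rfl fun j _ => ?_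
      have e3 : (X : ℂ⟦X⟧) ^ (j : ℕ) = bv (h m) ((0, j) : I N) := by simp [bv]
      rw [map_smul, e3, hJbv, hg0, smul_smul, kap0, hcz, ← zpow_natCast, ← zpow_mul, mul_assoc,
        ← zpow_add₀ hM]
      simp [w]
    have := eO (m ^ (4 * N)) 1
    rw [J1, mul_one, e1, map_add, e2, hJbv, kap1] at this
    simpa using this
  refine ⟨S', m ^ (4 * N), by rwa [eK], by rwa [eB], by rwa [eO2], hhas d ?_⟩
  conv_rhs => rw [hd]
  simp only [Λ, map_sum, map_smul, hJbv, smul_smul]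
  refine sum_congr rfl fun p _ => ?_
  rw [mul_right_comm, hcan, one_mul]

end Pool.Agent.H28Z.Nwm
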