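import Mathlib

set_option autoImplicit false

namespace Pool.Agent.H28Z.PisK1

open Matrix

section general

variable {B : Type*} [Ring B] [TopologicalSpace B] [IsTopologicalRing B]

/-- The identity component of the unit group. -/
def N (B : Type*) [Ring B] [TopologicalSpace B] [IsTopologicalRing B] : Subgroup Bˣ :=
  Subgroup.connectedComponentOfOne Bˣ

theorem mem_N {u : Bˣ} : u ∈ N B ↔ u ∈ connectedComponent (1 : Bˣ) := Iff.rfl

/-- the unipotent unit attached to a square-zero element -/
def uni (n : B) (h : n * n = 0) : Bˣ where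
  val := 1 + n
  inv := 1 - n
  val_inv := by rw [add_mul, one_mul, mul_sub, mul_one, h]; simp
  inv_val := by rw [sub_mul, one_mul, mul_add, mul_one, h]; simp

theorem uni_mem [Algebra ℂ B] [ContinuousSMul ℂ B] (n : B) (h : n * n = 0) :
    uni n h ∈ N B := by
  have h' : ∀ t : ℂ, (t • n) * (t • n) = 0 := fun t => by
    rw [smul_mul_smul_comm, h, smul_zero]
  let f : ℂ → Bˣ := fun t => uni (t • n) (h' t)
  have hf : Continuous f := by
    rw [Units.continuous_iff]
    refine ⟨?_, ?_⟩
    · show Continuous fun t : ℂ => (1 : B) + t • n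
      fun_prop
    · show Continuous fun t : ℂ => (1 : B) - t • n
      fun_prop
  have h0 : f 0 = 1 := by
    ext; show (1 : B) + (0 : ℂ) • n = 1; simp
  have h1 : f 1 = uni n h := by
    ext; show (1 : B) + (1 : ℂ) • n = 1 + n; simp
  have hc : IsPreconnected (Set.range f) := isPreconnected_range hf
  rw [mem_N, ← h1]
  exact hc.subset_connectedComponent ⟨0, h0⟩ ⟨1, rfl⟩

theorem conj_mem {w : Bˣ} (hw : w ∈ N B) (V : Bˣ) :
    w * V * w⁻¹ ∈ connectedComponent V := by
  have hf : Continuous fun g : Bˣ => g * V * g⁻¹ := by fun_prop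
  have := hf.image_connectedComponent_subset (1 : Bˣ)
  have h2 := this ⟨w, hw, rfl⟩
  simpa using h2

theorem map_mem {C : Type*} [Ring C] [TopologicalSpace C] [IsTopologicalRing C]
    (f : B →* C) (hf : Continuous f) {u : Bˣ} (hu : u ∈ N B) : Units.map f u ∈ N C := by
  have hg : Continuous (Units.map f) := Continuous.units_map f hf
  have := hg.image_connectedComponent_subset (1 : Bˣ)
  have h2 := this ⟨u, hu, rfl⟩
  rw [map_one] at h2
  exact h2

end general

section pis

variable {A : Type*} [Ring A] [TopologicalSpace A] [IsTopologicalRing A]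
  [Algebra ℂ A] [ContinuousSMul ℂ A]

/-- two elements lie in one orbit of the identity component -/
def Rel (x x' : A) : Prop := ∃ w ∈ N A, (w : A) * x = x'

omit [Algebra ℂ A] [ContinuousSMul ℂ A] in
theorem Rel.symm {x x' : A} (h : Rel x x') : Rel x' x := by
  obtain ⟨w, hw, e⟩ := h
  exact ⟨w⁻¹, (N A).inv_mem hw, by rw [← e, ← mul_assoc]; simp⟩

omit [Algebra ℂ A] [ContinuousSMul ℂ A] in
theorem Rel.trans {x x' x'' : A} (h : Rel x x') (h' : Rel x' x'') : Rel x x'' := by
  obtain ⟨w, hw, e⟩ := h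
  obtain ⟨w', hw', e'⟩ := h'
  exact ⟨w' * w, (N A).mul_mem hw' hw, by rw [Units.val_mul, mul_assoc, e, e']⟩

theorem rel_of_indep {x x' y y' : A} (h1 : y * x = 1) (h2 : y * x' = 0) (h3 : y' * x = 0)
    (h4 : y' * x' = 1) : Rel x x' := by
  have a1 : (x' * y) * (x' * y) = 0 := by
    rw [mul_assoc, ← mul_assoc y, h2]; simp
  have a2 : (-(x * y')) * (-(x * y')) = 0 := by
    rw [neg_mul_neg, mul_assoc, ← mul_assoc y', h3]; simp
  refine ⟨uni _ a2 * uni _ a1, (N A).mul_mem (uni_mem _ _) (uni_mem _ _), ?_⟩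
  show ((1 + -(x * y')) * (1 + x' * y)) * x = x'
  have e1 : (1 + x' * y) * x = x + x' := by
    rw [add_mul, one_mul, mul_assoc, h1, mul_one]
  rw [mul_assoc, e1, add_mul, one_mul, neg_mul, mul_add, mul_assoc, mul_assoc, h3, h4]
  simp

theorem rel_mul (hA : ∀ x : A, x ≠ 0 → ∃ a b : A, a * x * b = 1) {x y s t : A}
    (h : y * x = 1) (hne : x * y ≠ 1) (hs : t * s = 1) : Rel x (x * s) := by
  obtain ⟨b, c, hbc⟩ := hA (1 - x * y) (fun h0 => hne (sub_eq_zero.mp h0).symm)
  have hpx : (1 - x * y) * x = 0 := by rw [sub_mul, one_mul, mul_assoc, h, mul_one, sub_self]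
  have hyp : y * (1 - x * y) = 0 := by rw [mul_sub, mul_one, ← mul_assoc, h, one_mul, sub_self]
  have hpp : (1 - x * y) * (1 - x * y) = 1 - x * y := by
    rw [mul_sub, mul_one, ← mul_assoc, hpx]; simp
  have z1 : (b * (1 - x * y)) * ((1 - x * y) * c) = 1 := by
    rw [mul_assoc, ← mul_assoc (1 - x * y), hpp, ← mul_assoc, hbc]
  have z2 : y * ((1 - x * y) * c) = 0 := by rw [← mul_assoc, hyp, zero_mul]
  have z3 : (b * (1 - x * y)) * x = 0 := by rw [mul_assoc, hpx, mul_zero]
  have r1 : Rel x ((1 - x * y) * c) := rel_of_indep h z2 z3 z1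
  have r2 : Rel (x * s) ((1 - x * y) * c) := by
    refine rel_of_indep (y := t * y) (y' := b * (1 - x * y)) ?_ ?_ ?_ z1
    · rw [mul_assoc, ← mul_assoc y, h, one_mul, hs]
    · rw [mul_assoc, z2, mul_zero]
    · rw [← mul_assoc, z3, zero_mul]
  exact r1.trans r2.symm

theorem rel_all (hA : ∀ x : A, x ≠ 0 → ∃ a b : A, a * x * b = 1) {x y x' y' : A}
    (h : y * x = 1) (hne : x * y ≠ 1) (h' : y' * x' = 1) (hne' : x' * y' ≠ 1) : Rel x x' := by
  have hpx : (1 - x * y) * x = 0 := by rw [sub_mul, one_mul, mul_assoc, h, mul_one, sub_self]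
  by_cases h0 : (1 - x * y) * x' = 0
  · have e : x * (y * x') = x' := by
      rw [sub_mul, one_mul, sub_eq_zero] at h0
      rw [← mul_assoc]; exact h0.symm
    have := rel_mul hA (s := y * x') (t := y' * x) h hne (by rw [mul_assoc, e, h'])
    rwa [e] at this
  · obtain ⟨b, c, hbc⟩ := hA _ h0
    have z1 : (b * (1 - x * y)) * (x' * c) = 1 := by
      have e : (b * (1 - x * y)) * (x' * c) = b * ((1 - x * y) * x') * c := by
        simp only [mul_assoc]
      rw [e, hbc]
    have z3 : (b * (1 - x * y)) * x = 0 := by rw [mul_assoc, hpx, mul_zero]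
    have r1 : Rel x (x' * c) := by
      refine rel_of_indep (y := y - y * (x' * c) * (b * (1 - x * y))) (y' := b * (1 - x * y))
        ?_ ?_ z3 z1
      · rw [sub_mul, mul_assoc (y * (x' * c)), z3, mul_zero, sub_zero, h]
      · rw [sub_mul, mul_assoc (y * (x' * c)), z1, mul_one, sub_self]
    have r2 : Rel x' (x' * c) :=
      rel_mul hA (t := b * (1 - x * y) * x') h' hne' (by rw [mul_assoc]; exact z1)
    exact r1.trans r2.symm

/-- every unit is, modulo the identity component, a unit acting as the identity on `x A` -/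
theorem exists_fix (hA : ∀ x : A, x ≠ 0 → ∃ a b : A, a * x * b = 1) {x y : A}
    (h : y * x = 1) (hne : x * y ≠ 1) (u : Aˣ) :
    ∃ w ∈ N A, ∃ w' ∈ N A, ((w * u * w' : Aˣ) : A) * x = x ∧ y * ((w * u * w' : Aˣ) : A) = y := by
  have h1 : (y * (u⁻¹ : Aˣ)) * ((u : A) * x) = 1 := by
    rw [mul_assoc, ← mul_assoc ((u⁻¹ : Aˣ) : A)]; simp [h]
  have h2 : ((u : A) * x) * (y * (u⁻¹ : Aˣ)) ≠ 1 := by
    intro e
    apply hne
    have : x * y = (u⁻¹ : Aˣ) * (((u : A) * x) * (y * (u⁻¹ : Aˣ))) * u := by
      simp [mul_assoc]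
    rw [this, e]; simp
  obtain ⟨w, hw, e⟩ := rel_all hA h1 h2 h hne
  set v : A := (w : A) * u with hv
  have hvx : v * x = x := by rw [hv, mul_assoc, e]
  have hpx : (1 - x * y) * x = 0 := by rw [sub_mul, one_mul, mul_assoc, h, mul_one, sub_self]
  have a1 : (-(x * y * v * (1 - x * y))) * (-(x * y * v * (1 - x * y))) = 0 := by
    rw [neg_mul_neg]
    have : x * y * v * (1 - x * y) * (x * y * v * (1 - x * y))
        = x * y * v * ((1 - x * y) * x) * (y * v * (1 - x * y)) := by simp only [mul_assoc]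
    rw [this, hpx]; simp
  refine ⟨w, hw, uni _ a1, uni_mem _ _, ?_, ?_⟩
  · show (w : A) * u * (1 + -(x * y * v * (1 - x * y))) * x = x
    rw [← hv, mul_assoc, add_mul, one_mul, neg_mul, mul_assoc (x * y * v), hpx]
    simpa using hvx
  · show y * ((w : A) * u * (1 + -(x * y * v * (1 - x * y)))) = y
    rw [← hv, mul_add, mul_one, mul_neg]
    have e1 : v * (x * y * v * (1 - x * y)) = x * y * v * (1 - x * y) := by
      have : v * (x * y * v * (1 - x * y)) = (v * x) * y * v * (1 - x * y) := by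
        simp only [mul_assoc]
      rw [this, hvx]
    rw [e1, mul_add, mul_neg]
    have e2 : y * (x * y * v * (1 - x * y)) = y * v - y := by
      have : y * (x * y * v * (1 - x * y)) = (y * x) * (y * v * (1 - x * y)) := by
        simp only [mul_assoc]
      rw [this, h, one_mul, mul_sub, mul_one]
      have : y * v * (x * y) = y * (v * x) * y := by simp only [mul_assoc]
      rw [this, hvx, h, one_mul]
    rw [e2]; abel

end pis

section algebra

variable {A : Type*} [Ring A]

theorem exists_proper (h1 : ∃ x : A, x ≠ 0 ∧ ¬ IsUnit x)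
    (hA : ∀ x : A, x ≠ 0 → ∃ a b : A, a * x * b = 1) : ∃ x y : A, y * x = 1 ∧ x * y ≠ 1 := by
  obtain ⟨x0, hx0, hnu⟩ := h1
  obtain ⟨a, b, hab⟩ := hA x0 hx0
  by_cases c1 : b * (a * x0) = 1
  · by_cases c2 : x0 * (b * a) = 1
    · exact absurd ⟨⟨x0, b * a, c2, by rw [mul_assoc]; exact c1⟩, rfl⟩ hnu
    · exact ⟨x0, b * a, by rw [mul_assoc]; exact c1, c2⟩
  · exact ⟨b, a * x0, hab, c1⟩

theorem exists_family (hA : ∀ x : A, x ≠ 0 → ∃ a b : A, a * x * b = 1) {x y : A}
    (h : y * x = 1) (hne : x * y ≠ 1) :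
    ∃ s t : ℕ → A, ∀ i j, t i * s j = if i = j then 1 else 0 := by
  obtain ⟨b, c, hbc⟩ := hA (1 - x * y) (fun h0 => hne (sub_eq_zero.mp h0).symm)
  have hpx : (1 - x * y) * x = 0 := by rw [sub_mul, one_mul, mul_assoc, h, mul_one, sub_self]
  have hyp : y * (1 - x * y) = 0 := by rw [mul_sub, mul_one, ← mul_assoc, h, one_mul, sub_self]
  have hpp : (1 - x * y) * (1 - x * y) = 1 - x * y := by
    rw [mul_sub, mul_one, ← mul_assoc, hpx]; simp
  have z1 : (b * (1 - x * y)) * ((1 - x * y) * c) = 1 := by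
    rw [mul_assoc, ← mul_assoc (1 - x * y), hpp, ← mul_assoc, hbc]
  have z2 : y * ((1 - x * y) * c) = 0 := by rw [← mul_assoc, hyp, zero_mul]
  have z3 : (b * (1 - x * y)) * x = 0 := by rw [mul_assoc, hpx, mul_zero]
  generalize (1 - x * y) * c = z at z1 z2
  generalize b * (1 - x * y) = β at z1 z3
  have key : ∀ i j : ℕ, β * y ^ i * (x ^ j * z) = if i = j then 1 else 0 := by
    intro i
    induction i with
    | zero =>
      intro j
      cases j with
      | zero => simpa using z1
      | succ j =>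
        rw [pow_zero, mul_one, pow_succ', mul_assoc, ← mul_assoc β, z3]; simp
    | succ i ih =>
      intro j
      cases j with
      | zero =>
        rw [pow_zero, one_mul, pow_succ, mul_assoc, mul_assoc, z2]; simp
      | succ j =>
        have : β * y ^ (i + 1) * (x ^ (j + 1) * z) = β * y ^ i * ((y * x) * (x ^ j * z)) := by
          rw [pow_succ, pow_succ']; simp only [mul_assoc]
        rw [this, h, one_mul, ih j]; simp
  exact ⟨fun j => x ^ j * z, fun i => β * y ^ i, key⟩

/-- an embedding of `A ^ ι` onto a summand of `A`, equal to the identity on the complement of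
`x A` in the coordinate `i0` -/
theorem exists_embed (hA : ∀ x : A, x ≠ 0 → ∃ a b : A, a * x * b = 1) {x y : A}
    (h : y * x = 1) (hne : x * y ≠ 1) {ι : Type*} [Fintype ι] [DecidableEq ι] (i0 : ι) :
    ∃ X Y : ι → A, (∀ i j, Y i * X j = if i = j then 1 else 0) ∧
      X i0 * (1 - x * y) = 1 - x * y ∧ (1 - x * y) * Y i0 = 1 - x * y := by
  obtain ⟨s0, t0, hst0⟩ := exists_family hA h hne
  let e : ι → ℕ := fun i => (Fintype.equivFin ι i : ℕ)
  have he : Function.Injective e := fun i j hij => (Fintype.equivFin ι).injective (Fin.ext hij)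
  let s : ι → A := fun i => s0 (e i)
  let t : ι → A := fun i => t0 (e i)
  have hst : ∀ i j, t i * s j = if i = j then 1 else 0 := fun i j => by
    simp only [s, t, hst0, he.eq_iff]
  have hpx : (1 - x * y) * x = 0 := by rw [sub_mul, one_mul, mul_assoc, h, mul_one, sub_self]
  have hyp : y * (1 - x * y) = 0 := by rw [mul_sub, mul_one, ← mul_assoc, h, one_mul, sub_self]
  have hpp : (1 - x * y) * (1 - x * y) = 1 - x * y := by
    rw [mul_sub, mul_one, ← mul_assoc, hpx]; simp
  set p := 1 - x * y with hp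
  have hyx : ∀ r : A, y * (x * r) = r := fun r => by rw [← mul_assoc, h, one_mul]
  have hpx' : ∀ r : A, p * (x * r) = 0 := fun r => by rw [← mul_assoc, hpx, zero_mul]
  refine ⟨fun i => if i = i0 then p + x * s i0 * y else x * s i,
    fun i => if i = i0 then p + x * t i0 * y else t i * y, ?_, ?_, ?_⟩
  · intro i j
    by_cases hi : i = i0 <;> by_cases hj : j = i0
    · subst hi; subst hj
      have h11 : t j * (s j * y) = y := by rw [← mul_assoc, hst]; simp
      simp only [if_true, add_mul, mul_add, mul_assoc, hpp, hpx', hyp, hyx, h11, mul_zero,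
        add_zero, zero_add]
      rw [hp]; abel
    · subst hi
      have hij : ¬ i = j := fun e => hj e.symm
      simp only [if_true, hj, if_false, hij, add_mul, mul_assoc, hpx', hyx, hst, mul_zero,
        add_zero]
    · subst hj
      have h11 : t i * (s j * y) = 0 := by rw [← mul_assoc, hst]; simp [hi]
      simp only [if_true, hi, if_false, mul_add, mul_assoc, hyp, hyx, h11, mul_zero, add_zero]
    · simp only [hi, hj, if_false, mul_assoc, hyx, hst]
  · simp only [if_true, add_mul, mul_assoc, hpp, hyp, mul_zero, add_zero]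
  · simp only [if_true, mul_add, mul_assoc, hpp, hpx', add_zero]

/-- compression along a split embedding, as a monoid homomorphism of matrix rings -/
def comp {ι κ : Type*} [Fintype ι] [DecidableEq ι] [Fintype κ] [DecidableEq κ]
    (X : Matrix κ ι A) (Y : Matrix ι κ A) (h : Y * X = 1) : Matrix ι ι A →* Matrix κ κ A where
  toFun m := 1 + X * (m - 1) * Y
  map_one' := by simp
  map_mul' a b := by
    have e : X * (a - 1) * Y * (X * (b - 1) * Y) = X * ((a - 1) * (b - 1)) * Y := by
      have : X * (a - 1) * Y * (X * (b - 1) * Y) = X * (a - 1) * (Y * X) * (b - 1) * Y := by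
        simp only [Matrix.mul_assoc]
      rw [this, h, Matrix.mul_one]; simp only [Matrix.mul_assoc]
    rw [add_mul, one_mul, mul_add, mul_one, e]
    have : a * b - 1 = (b - 1) + ((a - 1) + (a - 1) * (b - 1)) := by noncomm_ring
    rw [this, Matrix.mul_add, Matrix.mul_add, Matrix.add_mul, Matrix.add_mul]
    abel

theorem comp_apply {ι κ : Type*} [Fintype ι] [DecidableEq ι] [Fintype κ] [DecidableEq κ]
    (X : Matrix κ ι A) (Y : Matrix ι κ A) (h : Y * X = 1) (m : Matrix ι ι A) :
    comp X Y h m = 1 + X * (m - 1) * Y := rfl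

end algebra

section mat

variable {A : Type*} [Ring A] [TopologicalSpace A] [IsTopologicalRing A]
  [Algebra ℂ A] [ContinuousSMul ℂ A]
  {ι κ : Type*} [Fintype ι] [DecidableEq ι] [Fintype κ] [DecidableEq κ]

omit [Algebra ℂ A] [ContinuousSMul ℂ A] in
theorem comp_continuous (X : Matrix κ ι A) (Y : Matrix ι κ A) (h : Y * X = 1) :
    Continuous (comp X Y h) := by
  show Continuous fun m : Matrix ι ι A => 1 + X * (m - 1) * Y
  refine continuous_const.add ?_
  exact (continuous_const.matrix_mul (continuous_id.sub continuous_const)).matrix_mul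
    continuous_const

theorem comp_conn (X X' : Matrix κ ι A) (Y Y' : Matrix ι κ A) (h1 : Y * X = 1) (h2 : Y * X' = 0)
    (h3 : Y' * X = 0) (h4 : Y' * X' = 1) (U : (Matrix ι ι A)ˣ) :
    Units.map (comp X' Y' h4) U ∈ connectedComponent (Units.map (comp X Y h1) U) := by
  have a1 : (X' * Y) * (X' * Y) = 0 := by
    rw [Matrix.mul_assoc, ← Matrix.mul_assoc Y, h2]; simp
  have a2 : (-(X * Y')) * (-(X * Y')) = 0 := by
    rw [neg_mul_neg, Matrix.mul_assoc, ← Matrix.mul_assoc Y', h3]; simp
  let w : (Matrix κ κ A)ˣ := uni _ a1 * uni _ a2 * uni _ a1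
  have hw : w ∈ N (Matrix κ κ A) :=
    (N _).mul_mem ((N _).mul_mem (uni_mem _ _) (uni_mem _ _)) (uni_mem _ _)
  have hwv : (w : Matrix κ κ A) = (1 + X' * Y) * (1 + -(X * Y')) * (1 + X' * Y) := rfl
  have e1 : (w : Matrix κ κ A) * X = X' := by
    have f1 : (1 + X' * Y) * X = X + X' := by
      rw [Matrix.add_mul, Matrix.one_mul, Matrix.mul_assoc, h1, Matrix.mul_one]
    have f2 : (1 + -(X * Y')) * (X + X') = X' := by
      rw [Matrix.add_mul, Matrix.one_mul, Matrix.neg_mul, Matrix.mul_add, Matrix.mul_assoc,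
        Matrix.mul_assoc, h3, h4]
      simp
    have f3 : (1 + X' * Y) * X' = X' := by
      rw [Matrix.add_mul, Matrix.one_mul, Matrix.mul_assoc, h2]; simp
    rw [hwv, Matrix.mul_assoc, f1, Matrix.mul_assoc, f2, f3]
  have e2 : Y' * (w : Matrix κ κ A) = Y := by
    have f1 : Y' * (1 + X' * Y) = Y' + Y := by
      rw [Matrix.mul_add, Matrix.mul_one, ← Matrix.mul_assoc, h4, Matrix.one_mul]
    have f2 : (Y' + Y) * (1 + -(X * Y')) = Y := by
      rw [Matrix.mul_add, Matrix.mul_one, Matrix.mul_neg, Matrix.add_mul, ← Matrix.mul_assoc,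
        ← Matrix.mul_assoc, h3, h1]
      simp
    have f3 : Y * (1 + X' * Y) = Y := by
      rw [Matrix.mul_add, Matrix.mul_one, ← Matrix.mul_assoc, h2]; simp
    rw [hwv, ← Matrix.mul_assoc, ← Matrix.mul_assoc, f1, f2, f3]
  have e3 : Units.map (comp X' Y' h4) U * w = w * Units.map (comp X Y h1) U := by
    ext1
    simp only [Units.val_mul, Units.coe_map, comp_apply]
    rw [Matrix.add_mul, Matrix.mul_add, Matrix.one_mul, Matrix.mul_one, Matrix.mul_assoc, e2,
      ← Matrix.mul_assoc (w : Matrix κ κ A), ← Matrix.mul_assoc (w : Matrix κ κ A), e1]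
  have e4 : Units.map (comp X' Y' h4) U = w * Units.map (comp X Y h1) U * w⁻¹ := by
    rw [← e3]; simp
  rw [e4]
  exact conj_mem hw _

end mat

end Pool.Agent.H28Z.PisK1
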