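import Pool.Agent.H28Z.PisK1

set_option autoImplicit false

namespace Pool.Agent.H28Z.PisK1

open Matrix

variable {A : Type*} [Ring A] [TopologicalSpace A] [IsTopologicalRing A]
  [Algebra ℂ A] [ContinuousSMul ℂ A]

/-- entry of a one by one matrix, as a monoid homomorphism -/
def entry (A : Type*) [Ring A] : Matrix Unit Unit A →* A where
  toFun m := m () ()
  map_one' := by simp
  map_mul' a b := by simp [Matrix.mul_apply]

/-- the diagonal matrix with one prescribed entry -/
def dg {ι : Type*} [Fintype ι] [DecidableEq ι] (i0 : ι) : A →* Matrix ι ι A where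
  toFun a := Matrix.diagonal fun i => if i = i0 then a else 1
  map_one' := by simp
  map_mul' a b := by
    rw [Matrix.diagonal_mul_diagonal]; congr 1; funext i; split_ifs <;> simp

theorem inj_part (h1 : ∃ x : A, x ≠ 0 ∧ ¬ IsUnit x)
    (hA : ∀ x : A, x ≠ 0 → ∃ a b : A, a * x * b = 1)
    {ι : Type*} [Fintype ι] [DecidableEq ι] (i0 : ι) (a : Aˣ) (U : (Matrix ι ι A)ˣ)
    (hU : (U : Matrix ι ι A) = Matrix.diagonal fun i => if i = i0 then (a : A) else 1)
    (hc : U ∈ connectedComponent (1 : (Matrix ι ι A)ˣ)) : a ∈ connectedComponent (1 : Aˣ) := by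
  obtain ⟨x, y, h, hne⟩ := exists_proper h1 hA
  obtain ⟨X, Y, hXY, hX, hY⟩ := exists_embed hA h hne i0
  let Xm : Matrix Unit ι A := Matrix.of fun _ j => X j
  let Ym : Matrix ι Unit A := Matrix.of fun i _ => Y i
  have hm : Ym * Xm = 1 := by
    ext i j
    simp [Matrix.mul_apply, Xm, Ym, hXY, Matrix.one_apply]
  let Φ : Matrix ι ι A →* A := (entry A).comp (comp Xm Ym hm)
  have hΦ : Continuous Φ := by
    have : Continuous (entry A) := by
      show Continuous fun m : Matrix Unit Unit A => m () ()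
      exact continuous_apply_apply () ()
    exact this.comp (comp_continuous Xm Ym hm)
  have hdg : Continuous (dg i0 : A →* Matrix ι ι A) := by
    show Continuous fun a : A => Matrix.diagonal fun i => if i = i0 then a else 1
    refine Continuous.matrix_diagonal (continuous_pi fun i => ?_)
    split_ifs
    · exact continuous_id
    · exact continuous_const
  let Ψ : A →* A := Φ.comp (dg i0)
  have hΨ : Continuous Ψ := hΦ.comp hdg
  have hΨv : ∀ r : A, Ψ r = 1 + X i0 * (r - 1) * Y i0 := by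
    intro r
    show ((1 + Xm * ((Matrix.diagonal fun i => if i = i0 then r else 1) - 1) * Ym :
      Matrix Unit Unit A)) () () = _
    have e : ((Matrix.diagonal fun i => if i = i0 then r else 1) - 1 : Matrix ι ι A)
        = Matrix.diagonal fun i => if i = i0 then r - 1 else 0 := by
      rw [← Matrix.diagonal_one, Matrix.diagonal_sub]; congr 1; funext i; split_ifs <;> simp
    rw [e, Matrix.add_apply, Matrix.mul_apply]
    simp [Matrix.mul_diagonal, Xm, Ym]
  have ha : Units.map Ψ a ∈ N A := by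
    have := map_mem Φ hΦ (u := U) hc
    have e : Units.map Φ U = Units.map Ψ a := by
      ext1
      simp only [Units.coe_map, hU]
      rfl
    rwa [e] at this
  obtain ⟨w, hw, w', hw', e1, e2⟩ := exists_fix hA h hne a
  have hv : Units.map Ψ (w * a * w') ∈ N A := by
    rw [map_mul, map_mul]
    exact (N A).mul_mem ((N A).mul_mem (map_mem Ψ hΨ hw) ha) (map_mem Ψ hΨ hw')
  have hfix : Units.map Ψ (w * a * w') = w * a * w' := by
    ext1
    rw [Units.coe_map]
    generalize ((w * a * w' : Aˣ) : A) = v at e1 e2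
    have f1 : (1 - x * y) * (v - 1) = v - 1 := by
      rw [sub_mul, one_mul, mul_assoc, mul_sub y, e2]; simp
    have f2 : (v - 1) * (1 - x * y) = v - 1 := by
      rw [mul_sub, mul_one, ← mul_assoc, sub_mul v, e1]; simp
    have f3 : X i0 * (v - 1) * Y i0 = v - 1 := by
      have g1 : X i0 * (v - 1) = v - 1 := by rw [← f1, ← mul_assoc, hX]
      rw [g1, ← f2, mul_assoc, hY]
    show Ψ v = v
    rw [hΨv, f3]; abel
  rw [hfix] at hv
  have : a = w⁻¹ * (w * a * w') * w'⁻¹ := by group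
  rw [← mem_N, this]
  exact (N A).mul_mem ((N A).mul_mem ((N A).inv_mem hw) hv) ((N A).inv_mem hw')

theorem surj_part (h1 : ∃ x : A, x ≠ 0 ∧ ¬ IsUnit x)
    (hA : ∀ x : A, x ≠ 0 → ∃ a b : A, a * x * b = 1)
    {ι : Type*} [Fintype ι] [DecidableEq ι] (i0 : ι) (U : (Matrix ι ι A)ˣ) :
    ∃ (a : Aˣ) (V W : (Matrix (ι ⊕ Fin 1) (ι ⊕ Fin 1) A)ˣ),
      (V : Matrix (ι ⊕ Fin 1) (ι ⊕ Fin 1) A) = Matrix.fromBlocks (U : Matrix ι ι A) 0 0 1 ∧
      (W : Matrix (ι ⊕ Fin 1) (ι ⊕ Fin 1) A) =
        Matrix.diagonal (fun i : ι ⊕ Fin 1 => if i = Sum.inl i0 then (a : A) else 1) ∧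
      W ∈ connectedComponent V := by
  obtain ⟨x, y, h, hne⟩ := exists_proper h1 hA
  obtain ⟨X, Y, hXY, -, -⟩ := exists_embed hA h hne i0
  let Xm : Matrix Unit ι A := Matrix.of fun _ j => X j
  let Ym : Matrix ι Unit A := Matrix.of fun i _ => Y i
  have hm : Ym * Xm = 1 := by
    ext i j
    simp [Matrix.mul_apply, Xm, Ym, hXY, Matrix.one_apply]
  let Φ : Matrix ι ι A →* A := (entry A).comp (comp Xm Ym hm)
  let Xk : (ι ⊕ Fin 1) → Matrix (ι ⊕ Fin 1) ι A := fun k =>
    Matrix.of fun i j => if i = k then X j else 0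
  let Yk : (ι ⊕ Fin 1) → Matrix ι (ι ⊕ Fin 1) A := fun k =>
    Matrix.of fun i j => if j = k then Y i else 0
  have hk : ∀ k, Yk k * Xk k = 1 := by
    intro k; ext i j
    simp [Matrix.mul_apply, Xk, Yk, hXY, Matrix.one_apply]
  have hk' : ∀ k l, k ≠ l → Yk k * Xk l = 0 := by
    intro k l hkl; ext i j
    simp [Matrix.mul_apply, Xk, Yk, hkl.symm]
  let J : Matrix (ι ⊕ Fin 1) ι A := Matrix.fromRows 1 0
  let K : Matrix ι (ι ⊕ Fin 1) A := Matrix.fromCols 1 0
  have hJ : K * J = 1 := by simp [J, K, Matrix.fromCols_mul_fromRows]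
  have h2 : K * Xk (Sum.inr 0) = 0 := by
    ext i j
    simp [Matrix.mul_apply, Xk, K]
  have h3 : Yk (Sum.inr 0) * J = 0 := by
    ext i j
    simp [Matrix.mul_apply, Yk, J]
  have c1 := comp_conn J (Xk (Sum.inr 0)) K (Yk (Sum.inr 0)) hJ h2 h3 (hk _) U
  have c2 := comp_conn (Xk (Sum.inr 0)) (Xk (Sum.inl i0)) (Yk (Sum.inr 0)) (Yk (Sum.inl i0))
    (hk _) (hk' _ _ (by simp)) (hk' _ _ (by simp)) (hk _) U
  refine ⟨Units.map Φ U, Units.map (comp J K hJ) U,
    Units.map (comp (Xk (Sum.inl i0)) (Yk (Sum.inl i0)) (hk _)) U, ?_, ?_, ?_⟩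
  · rw [Units.coe_map, comp_apply]
    have e : J * ((U : Matrix ι ι A) - 1) = Matrix.fromRows ((U : Matrix ι ι A) - 1) 0 := by
      simp only [J, Matrix.fromRows_mul, Matrix.one_mul, Matrix.zero_mul]
    rw [e]
    simp only [K, Matrix.fromRows_mul_fromCols, Matrix.zero_mul, Matrix.mul_one, Matrix.mul_zero]
    rw [← Matrix.fromBlocks_one, Matrix.fromBlocks_add]
    simp
  · rw [Units.coe_map, comp_apply]
    have hΦ : ((Units.map Φ U : Aˣ) : A)
        = 1 + ∑ l, (∑ m, X m * ((U : Matrix ι ι A) - 1) m l) * Y l := by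
      show ((1 + Xm * ((U : Matrix ι ι A) - 1) * Ym : Matrix Unit Unit A)) () () = _
      simp only [Matrix.add_apply, Matrix.mul_apply, Xm, Ym, Matrix.one_apply_eq, Matrix.of_apply]
    rw [hΦ]
    ext i j
    rw [Matrix.add_apply, Matrix.mul_apply]
    simp only [Matrix.mul_apply, Xk, Yk, Matrix.diagonal_apply, Matrix.one_apply, Matrix.of_apply]
    by_cases hi : i = Sum.inl i0 <;> by_cases hj : j = Sum.inl i0
    · subst hi; subst hj; simp
    · subst hi; simp [hj, Ne.symm hj]
    · subst hj; simp [hi]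
    · simp [hi, hj]
  · rw [connectedComponent_eq c1]
    exact c2

end Pool.Agent.H28Z.PisK1
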